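import Pool.Agent.NLS.Def

set_option autoImplicit false

namespace Pool.Agent.NLS

/-- late filling: between `A` and `B` with prescribed sum -/
theorem late_fill (n : ℕ) : ∀ (A B : ℕ → ℕ) (b : ℕ), (∀ r, r < n + 1 → A r ≤ B r) →
    ∑ r ∈ Finset.range (n + 1), A r ≤ b → b ≤ ∑ r ∈ Finset.range (n + 1), B r →
    ∃ (s : ℕ) (y : ℕ → ℕ), s < n + 1 ∧ (∀ r, r < s → y r = A r) ∧
      (∀ r, s < r → r < n + 1 → y r = B r) ∧ A s ≤ y s ∧ y s ≤ B s ∧
      ∑ r ∈ Finset.range (n + 1), y r = b := by
  induction n with
  | zero =>
    intro A B b hAB h1 h2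
    refine ⟨0, fun _ => b, by omega, by intro r hr; omega, by intro r h0 h1; omega, ?_, ?_, ?_⟩
    · simpa using h1
    · simpa using h2
    · simp
  | succ n ih =>
    intro A B b hAB h1 h2
    rw [Finset.sum_range_succ] at h1 h2
    by_cases hc : ∑ r ∈ Finset.range (n + 1), A r + B (n + 1) ≤ b
    · obtain ⟨s, y, hs, hy1, hy2, hy3, hy4, hy5⟩ := ih A B (b - B (n + 1))
        (fun r hr => hAB r (by omega)) (by omega) (by omega)
      refine ⟨s, fun r => if r = n + 1 then B (n + 1) else y r, by omega, ?_, ?_, ?_, ?_, ?_⟩
      · intro r hr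
        have : r ≠ n + 1 := by omega
        simp [this, hy1 r hr]
      · intro r hr hr2
        by_cases h : r = n + 1
        · simp [h]
        · simp [h, hy2 r hr (by omega)]
      · have : s ≠ n + 1 := by omega
        simpa [this] using hy3
      · have : s ≠ n + 1 := by omega
        simpa [this] using hy4
      · rw [Finset.sum_range_succ]
        have : ∑ r ∈ Finset.range (n + 1), (if r = n + 1 then B (n + 1) else y r)
            = ∑ r ∈ Finset.range (n + 1), y r := by
          apply Finset.sum_congr rfl
          intro r hr
          have : r ≠ n + 1 := by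
            have := Finset.mem_range.mp hr
            omega
          simp [this]
        simp only [this, hy5, if_true]
        omega
    · refine ⟨n + 1, fun r => if r = n + 1 then b - ∑ r ∈ Finset.range (n + 1), A r else A r,
        by omega, ?_, ?_, ?_, ?_, ?_⟩
      · intro r hr
        have : r ≠ n + 1 := by omega
        simp [this]
      · intro r hr hr2
        omega
      · simp only [if_true]
        omega
      · simp only [if_true]
        omega
      · rw [Finset.sum_range_succ]
        have : ∑ r ∈ Finset.range (n + 1),
            (if r = n + 1 then b - ∑ r ∈ Finset.range (n + 1), A r else A r)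
            = ∑ r ∈ Finset.range (n + 1), A r := by
          apply Finset.sum_congr rfl
          intro r hr
          have : r ≠ n + 1 := by
            have := Finset.mem_range.mp hr
            omega
          simp [this]
        simp only [this, if_true]
        omega

theorem LR2_suf (n : ℕ) (hn : 2 ≤ n) (l a : ℕ → ℕ) (hl : Antitone l) (ha : Antitone a)
    (hlz : ∀ i, n ≤ i → l i = 0) (haz : ∀ i, n ≤ i → a i = 0) (h1 : ∀ i, a i ≤ l i)
    (h2 : ∀ i, l (i + 2) ≤ a i) (b0 b1 : ℕ) (hb : b1 ≤ b0)
    (hsum : ∑ i ∈ Finset.range n, l i = ∑ i ∈ Finset.range n, a i + b0 + b1)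
    (hk : kap n l a ≤ b1) (hD : ∀ i, i < n → Dd n l a i ≤ b0) :
    LR n l a (fun j => if j = 0 then b0 else if j = 1 then b1 else 0) := by
  obtain ⟨m, rfl⟩ : ∃ m, n = m + 1 := ⟨n - 1, by omega⟩
  set al : ℕ → ℕ := fun r => l (r + 1) - a r with hal
  set s : ℕ → ℕ := fun r => l r - a r with hs
  set A : ℕ → ℕ := fun r => if r = 0 then 0 else al (r - 1) with hA
  set B : ℕ → ℕ := fun r => if r = 0 then 0 else s r - al r with hB
  have hA0 : A 0 = 0 := by simp [hA]
  have hB0 : B 0 = 0 := by simp [hB]
  have hAs : ∀ r, A (r + 1) = al r := by intro r; simp [hA]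
  have hBs : ∀ r, B (r + 1) = s (r + 1) - al (r + 1) := by intro r; simp [hB]
  have hals : ∀ r, al r ≤ s r := by
    intro r
    have := hl (Nat.le_succ r)
    simp only [hal, hs]
    simp only [Nat.succ_eq_add_one] at this
    omega
  have hall : ∀ r, al r + al (r + 1) ≤ s (r + 1) := by
    intro r
    have e1 := hl (Nat.le_succ (r + 1))
    have e2 := ha (Nat.le_succ r)
    have e3 := h1 (r + 1)
    have e4 := h2 r
    simp only [Nat.succ_eq_add_one] at e1 e2
    simp only [hal, hs]
    have : r + 1 + 1 = r + 2 := rfl
    rw [this] at *
    omega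
  have hAB : ∀ r, r < m + 1 → A r ≤ B r := by
    intro r _
    rcases r with _ | r
    · rw [hA0, hB0]
    · rw [hAs, hBs]
      have := hall r
      omega
  have hsum_s : ∑ r ∈ Finset.range (m + 1), s r = b0 + b1 := by
    have : ∑ r ∈ Finset.range (m + 1), s r + ∑ r ∈ Finset.range (m + 1), a r
        = ∑ r ∈ Finset.range (m + 1), l r := by
      rw [← Finset.sum_add_distrib]
      apply Finset.sum_congr rfl
      intro r _
      have := h1 r
      simp only [hs]
      omega
    omega
  have hkap : kap (m + 1) l a = ∑ r ∈ Finset.range (m + 1), al r := rfl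
  have halm : al m = 0 := by
    have := hlz (m + 1) le_rfl
    simp only [hal]
    omega
  have hSA : ∑ r ∈ Finset.range (m + 1), A r ≤ b1 := by
    rw [Finset.sum_range_succ', hA0]
    simp only [hAs]
    rw [hkap, Finset.sum_range_succ] at hk
    omega
  have hSB : b1 ≤ ∑ r ∈ Finset.range (m + 1), B r := by
    rw [Finset.sum_range_succ', hB0]
    simp only [hBs]
    have e0 : ∑ r ∈ Finset.range m, (s (r + 1) - al (r + 1)) + ∑ r ∈ Finset.range m, al (r + 1)
        = ∑ r ∈ Finset.range m, s (r + 1) := by
      rw [← Finset.sum_add_distrib]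
      apply Finset.sum_congr rfl
      intro r _
      have := hals (r + 1)
      omega
    have e1 := hD 0 (by omega)
    have e2 : Dd (m + 1) l a 0 = s 0 + ∑ r ∈ Finset.range m, al (r + 1) := by
      unfold Dd
      rw [Finset.sum_range_succ']
      simp [hs, hal]
    rw [e2] at e1
    rw [Finset.sum_range_succ'] at hsum_s
    omega
  obtain ⟨c, y, hc, hy1, hy2, hy3, hy4, hy5⟩ := late_fill m A B b1 hAB hSA hSB
  have hy0 : y 0 = 0 := by
    rcases Nat.eq_zero_or_pos c with h | h
    · subst h
      rw [hB0] at hy4
      omega
    · rw [hy1 0 h, hA0]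
  have hyA : ∀ r, r < m + 1 → A r ≤ y r := by
    intro r hr
    rcases lt_trichotomy r c with h | h | h
    · rw [hy1 r h]
    · subst h; exact hy3
    · rw [hy2 r h hr]; exact hAB r hr
  have hyB : ∀ r, r < m + 1 → y r ≤ B r := by
    intro r hr
    rcases lt_trichotomy r c with h | h | h
    · rw [hy1 r h]; exact hAB r hr
    · subst h; exact hy4
    · rw [hy2 r h hr]
  have hys : ∀ r, r < m + 1 → y r + al r ≤ s r := by
    intro r hr
    rcases r with _ | r
    · rw [hy0]; have := hals 0; omega
    · have e := hyB (r + 1) hr
      rw [hBs] at e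
      have := hals (r + 1)
      omega
  have hyal : ∀ r, r + 1 < m + 1 → al r ≤ y (r + 1) := by
    intro r hr
    have e := hyA (r + 1) hr
    rwa [hAs] at e
  set x : ℕ → ℕ := fun r => s r - y r with hx
  have hxy : ∀ r, r < m + 1 → x r + y r = s r := by
    intro r hr
    have := hys r hr
    simp only [hx]
    omega
  have hxal : ∀ r, r < m + 1 → al r ≤ x r := by
    intro r hr
    have := hys r hr
    simp only [hx]
    omega
  have hxc : ∀ r, c < r → r < m + 1 → x r = al r := by
    intro r hcr hr
    have e := hy2 r hcr hr
    rcases r with _ | r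
    · omega
    · rw [hBs] at e
      have := hals (r + 1)
      simp only [hx]
      omega
  have hSx : ∑ r ∈ Finset.range (m + 1), x r = b0 := by
    have : ∑ r ∈ Finset.range (m + 1), x r + ∑ r ∈ Finset.range (m + 1), y r
        = ∑ r ∈ Finset.range (m + 1), s r := by
      rw [← Finset.sum_add_distrib]
      apply Finset.sum_congr rfl
      intro r hr
      exact hxy r (Finset.mem_range.mp hr)
    omega
  -- lattice condition
  have hlat_gt : ∀ k i, i + k = m → c < i →
      ∑ r ∈ Finset.range (i + 1), y r ≤ ∑ r ∈ Finset.range i, x r := by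
    intro k
    induction k with
    | zero =>
      intro i hi hci
      have : i = m := by omega
      subst this
      rw [hy5]
      have e := hxc i hci (by omega)
      rw [Finset.sum_range_succ] at hSx
      omega
    | succ k ih =>
      intro i hi hci
      have e := ih (i + 1) (by omega) (by omega)
      rw [Finset.sum_range_succ, Finset.sum_range_succ (fun r => x r) i] at e
      have e1 := hxc i hci (by omega)
      have e2 := hyal i (by omega)
      omega
  have hpre : ∀ i, i < c → ∑ r ∈ Finset.range (i + 1), y r = ∑ r ∈ Finset.range i, al r := by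
    intro i hi
    rw [Finset.sum_range_succ', hy0, add_zero]
    apply Finset.sum_congr rfl
    intro r hr
    have hr' := Finset.mem_range.mp hr
    rw [hy1 (r + 1) (by omega), hAs]
  have hlat : ∀ i, i < m + 1 → ∑ r ∈ Finset.range (i + 1), y r ≤ ∑ r ∈ Finset.range i, x r := by
    intro i hi
    rcases lt_trichotomy i c with h | h | h
    · rw [hpre i h]
      apply Finset.sum_le_sum
      intro r hr
      have hr' := Finset.mem_range.mp hr
      exact hxal r (by omega)
    · subst h
      rcases i with _ | i
      · simp [hy0]
      · rw [Finset.sum_range_succ, hpre i (by omega)]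
        have e1 := hD (i + 1) hi
        have e2 : Dd (m + 1) l a (i + 1) = s (i + 1) + (∑ r ∈ Finset.range i, al r
            + ∑ r ∈ Finset.Ico (i + 2) (m + 1), al r) := by
          unfold Dd
          rw [← Finset.sum_range_add_sum_Ico _ (show i + 2 ≤ m + 1 by omega),
            Finset.sum_range_succ, Finset.sum_range_succ]
          have f1 : ∑ r ∈ Finset.range i,
              (if r = i + 1 ∨ r + 1 = i + 1 then 0 else l (r + 1) - a r)
              = ∑ r ∈ Finset.range i, al r := by
            apply Finset.sum_congr rfl
            intro r hr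
            have hr' := Finset.mem_range.mp hr
            rw [if_neg (by omega)]
          have f2 : ∑ r ∈ Finset.Ico (i + 2) (m + 1),
              (if r = i + 1 ∨ r + 1 = i + 1 then 0 else l (r + 1) - a r)
              = ∑ r ∈ Finset.Ico (i + 2) (m + 1), al r := by
            apply Finset.sum_congr rfl
            intro r hr
            have hr' := Finset.mem_Ico.mp hr
            rw [if_neg (by omega)]
          rw [f1, f2]
          simp [hs]
        have e3 : ∑ r ∈ Finset.Ico (i + 2) (m + 1), x r
            = ∑ r ∈ Finset.Ico (i + 2) (m + 1), al r := by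
          apply Finset.sum_congr rfl
          intro r hr
          have hr' := Finset.mem_Ico.mp hr
          exact hxc r (by omega) (by omega)
        rw [← Finset.sum_range_add_sum_Ico _ (show i + 2 ≤ m + 1 by omega),
            Finset.sum_range_succ, e3] at hSx
        rw [e2] at e1
        have e4 := hxy (i + 1) hi
        omega
    · exact hlat_gt (m - i) i (by omega) h
  -- the filling
  refine ⟨fun i j => if j = 0 then x i else if j = 1 then y i else 0, ?_, ?_, ?_, ?_, ?_⟩
  · intro i hi
    obtain ⟨m', rfl⟩ : ∃ m', m = m' + 1 := ⟨m - 1, by omega⟩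
    rw [Finset.sum_range_succ', Finset.sum_range_succ']
    have e := hxy i hi
    have e1 := h1 i
    simp only [hs] at e
    simp
    omega
  · intro j hj
    rcases j with _ | _ | j
    · simpa using hSx
    · simpa using hy5
    · simp
  · intro i j hij
    rcases j with _ | _ | j
    · omega
    · have : i = 0 := by omega
      subst this
      simp [hy0]
    · simp
  · intro i j hi hj
    have e1 := hxal i (by omega)
    have e2 := hyal i hi
    have e3 := hxy i (by omega)
    have e4 := hxy (i + 1) hi
    have e5 := h1 i
    have e6 := h1 (i + 1)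
    have e7 := hl (Nat.le_succ i)
    simp only [Nat.succ_eq_add_one] at e7
    simp only [hs] at e3 e4
    simp only [hal] at e1 e2
    rcases j with _ | _ | j
    · simp
      omega
    · simp [Finset.sum_range_succ]
      omega
    · have g1 : ∑ k ∈ Finset.range (j + 1 + 1 + 1),
          (if k = 0 then x (i + 1) else if k = 1 then y (i + 1) else 0) = x (i + 1) + y (i + 1) := by
        rw [Finset.sum_range_succ', Finset.sum_range_succ']
        simp
        omega
      have g2 : ∑ k ∈ Finset.range (j + 1 + 1),
          (if k = 0 then x i else if k = 1 then y i else 0) = x i + y i := by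
        rw [Finset.sum_range_succ', Finset.sum_range_succ']
        simp
        omega
      rw [g1, g2]
      omega
  · intro i j hi hj
    rcases j with _ | j
    · simpa using hlat i hi
    · simp

end Pool.Agent.NLS
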