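import Pool.Agent.NLS.Def

set_option autoImplicit false

namespace Pool.Agent.NLS

theorem LR2_nec (n : ℕ) (hn : 2 ≤ n) (l a b : ℕ → ℕ)
    (hlz : ∀ i, n ≤ i → l i = 0) (hb : ∀ j, 2 ≤ j → j < n → b j = 0) (h : LR n l a b) :
    (∀ i, i < n → a i ≤ l i) ∧ (∀ i, i < n → l (i + 2) ≤ a i) ∧
      ∑ i ∈ Finset.range n, l i = ∑ i ∈ Finset.range n, a i + b 0 + b 1 ∧
      kap n l a ≤ b 1 ∧ ∀ i, i < n → Dd n l a i ≤ b 0 := by
  obtain ⟨t, H1, H2, H3, H4, H5⟩ := h
  -- entries in columns `≥ 2` vanish
  have ht0 : ∀ i j, i < n → 2 ≤ j → j < n → t i j = 0 := by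
    intro i j hi hj hjn
    have h2 := H2 j hjn
    rw [hb j hj hjn] at h2
    exact (Finset.sum_eq_zero_iff.1 h2) i (Finset.mem_range.2 hi)
  have hsum2 : ∀ i, i < n → ∑ j ∈ Finset.range n, t i j = t i 0 + t i 1 := by
    intro i hi
    obtain ⟨m, rfl⟩ : ∃ m, n = m + 2 := ⟨n - 2, by omega⟩
    rw [Finset.sum_range_succ', Finset.sum_range_succ']
    have : ∑ k ∈ Finset.range m, t i (k + 1 + 1) = 0 := by
      apply Finset.sum_eq_zero
      intro k hk
      have hk' := Finset.mem_range.1 hk
      exact ht0 i (k + 1 + 1) hi (by omega) (by omega)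
    rw [this]
    simp only [zero_add]
    omega
  have E1 : ∀ i, i < n → a i + t i 0 + t i 1 = l i := by
    intro i hi
    have h1 := H1 i hi
    rw [hsum2 i hi] at h1
    omega
  have E2x : ∑ i ∈ Finset.range n, t i 0 = b 0 := H2 0 (by omega)
  have E2y : ∑ i ∈ Finset.range n, t i 1 = b 1 := H2 1 (by omega)
  have E4a : ∀ i, i + 1 < n → a (i + 1) + t (i + 1) 0 ≤ a i := by
    intro i hi
    have := H4 i 0 hi (by omega)
    simpa using this
  have E4b : ∀ i, i + 1 < n → a (i + 1) + t (i + 1) 0 + t (i + 1) 1 ≤ a i + t i 0 := by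
    intro i hi
    have := H4 i 1 hi (by omega)
    simp [Finset.sum_range_succ] at this
    omega
  have E5 : ∀ i, i < n → ∑ r ∈ Finset.range (i + 1), t r 1 ≤ ∑ r ∈ Finset.range i, t r 0 := by
    intro i hi
    exact H5 i 0 hi (by omega)
  -- the two bounds for the number of columns of length two
  have Gy : ∀ r, r + 1 < n → l (r + 1) - a r ≤ t (r + 1) 1 := by
    intro r hr
    have h1 := E1 (r + 1) hr
    have h2 := E4a r hr
    omega
  have Gx : ∀ r, r < n → l (r + 1) - a r ≤ t r 0 := by
    intro r hr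
    by_cases hr' : r + 1 < n
    · have h1 := E1 (r + 1) hr'
      have h2 := E4b r hr'
      omega
    · have := hlz (r + 1) (by omega)
      omega
  refine ⟨?_, ?_, ?_, ?_, ?_⟩
  · intro i hi
    have := E1 i hi
    omega
  · intro i hi
    by_cases h2 : i + 2 < n
    · have h1 := E1 (i + 2) h2
      have h3 := E4b (i + 1) h2
      have h4 := E4a i (by omega)
      have h5 : i + 1 + 1 = i + 2 := rfl
      rw [h5] at h3
      omega
    · have := hlz (i + 2) (by omega)
      omega
  · have : ∑ i ∈ Finset.range n, l i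
        = ∑ i ∈ Finset.range n, (a i + t i 0 + t i 1) := by
      apply Finset.sum_congr rfl
      intro i hi
      exact (E1 i (Finset.mem_range.1 hi)).symm
    rw [this, Finset.sum_add_distrib, Finset.sum_add_distrib, E2x, E2y]
  · unfold kap
    obtain ⟨m, rfl⟩ : ∃ m, n = m + 1 := ⟨n - 1, by omega⟩
    rw [Finset.sum_range_succ]
    have hz : l (m + 1) - a m = 0 := by
      rw [hlz (m + 1) le_rfl]
      omega
    rw [hz, add_zero, ← E2y, Finset.sum_range_succ']
    have : ∑ r ∈ Finset.range m, (l (r + 1) - a r) ≤ ∑ r ∈ Finset.range m, t (r + 1) 1 := by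
      apply Finset.sum_le_sum
      intro r hr
      exact Gy r (by have := Finset.mem_range.1 hr; omega)
    omega
  · intro i hi
    unfold Dd
    set f : ℕ → ℕ := fun r => if r = i ∨ r + 1 = i then 0 else l (r + 1) - a r with hf
    -- part below `i`
    have hlow : ∑ r ∈ Finset.range i, f r ≤ ∑ r ∈ Finset.range i, t r 1 := by
      rcases Nat.eq_zero_or_pos i with h0 | h0
      · subst h0
        simp
      · obtain ⟨m, rfl⟩ : ∃ m, i = m + 1 := ⟨i - 1, by omega⟩
        rw [Finset.sum_range_succ, Finset.sum_range_succ']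
        have hfm : f m = 0 := by
          simp [hf]
        have : ∑ r ∈ Finset.range m, f r ≤ ∑ r ∈ Finset.range m, t (r + 1) 1 := by
          apply Finset.sum_le_sum
          intro r hr
          have hr' := Finset.mem_range.1 hr
          have h1 : f r = l (r + 1) - a r := by
            simp only [hf]
            rw [if_neg]
            omega
          rw [h1]
          exact Gy r (by omega)
        omega
    have hhigh : ∑ r ∈ Finset.Ico (i + 1) n, f r ≤ ∑ r ∈ Finset.Ico (i + 1) n, t r 0 := by
      apply Finset.sum_le_sum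
      intro r hr
      have hr' := Finset.mem_Ico.1 hr
      have h1 : f r = l (r + 1) - a r := by
        simp only [hf]
        rw [if_neg]
        omega
      rw [h1]
      exact Gx r hr'.2
    have hsplit : ∀ g : ℕ → ℕ, ∑ r ∈ Finset.range n, g r
        = ∑ r ∈ Finset.range i, g r + g i + ∑ r ∈ Finset.Ico (i + 1) n, g r := by
      intro g
      rw [← Finset.sum_range_succ, Finset.sum_range_add_sum_Ico _ (by omega : i + 1 ≤ n)]
    have hfi : f i = 0 := by
      simp [hf]
    have h5 := E5 i hi
    rw [Finset.sum_range_succ] at h5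
    have hx := hsplit (fun r => t r 0)
    rw [E2x] at hx
    have hff := hsplit f
    have e1 := E1 i hi
    have hgoal : ∑ r ∈ Finset.range n, (if r = i ∨ r + 1 = i then 0 else l (r + 1) - a r)
        = ∑ r ∈ Finset.range n, f r := rfl
    rw [hgoal, hff, hfi]
    omega

end Pool.Agent.NLS
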