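import Mathlib

set_option autoImplicit false

namespace Pool.Agent.NLS

open Finset

/-- coordinate function of the `i`-th strip of the pair `(l, m)` -/
def psi (l m : ℕ → ℤ) (i r : ℕ) (x : ℤ) : ℤ :=
  max (l (r + 1) - x) 0 + max (m (r + 1) - x) 0
    + (if r = i then l i - x - max (l (i + 1) - x) 0 else 0)
    - (if r + 1 = i then max (l i - x) 0 else 0)

def D (l m : ℕ → ℤ) (n i : ℕ) (a : ℕ → ℤ) : ℤ := ∑ r ∈ range n, psi l m i r (a r)

def phi (l m : ℕ → ℤ) (r : ℕ) (x : ℤ) : ℤ := max (l (r + 1) - x) 0 + max (m (r + 1) - x) 0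

def K (l m : ℕ → ℤ) (n : ℕ) (a : ℕ → ℤ) : ℤ := ∑ r ∈ range n, phi l m r (a r)

def fs (l a : ℕ → ℤ) (i : ℕ) : ℤ :=
  l i - a i - max (l (i + 1) - a i) 0 - (if i = 0 then 0 else max (l i - a (i - 1)) 0)

lemma D_eq (l m : ℕ → ℤ) (n i : ℕ) (a : ℕ → ℤ) (hi : i < n) :
    D l m n i a = fs l a i + K l m n a := by
  unfold D K psi phi fs
  rw [Finset.sum_sub_distrib, Finset.sum_add_distrib]
  have h1 : ∑ r ∈ range n, (if r = i then l i - a r - max (l (i + 1) - a r) 0 else 0)
      = l i - a i - max (l (i + 1) - a i) 0 := by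
    rw [Finset.sum_ite_eq' (range n) i (fun r => l i - a r - max (l (i + 1) - a r) 0)]
    simp [hi]
  have h2 : ∑ r ∈ range n, (if r + 1 = i then max (l i - a r) 0 else 0)
      = if i = 0 then 0 else max (l i - a (i - 1)) 0 := by
    by_cases h0 : i = 0
    · subst h0; simp
    · rw [if_neg h0]
      rw [Finset.sum_eq_single_of_mem (i - 1) (mem_range.mpr (by omega))]
      · rw [if_pos (by omega)]
      · intro r _ hr
        rw [if_neg (by omega)]
  rw [h1, h2]; ring

structure Pt (l m : ℕ → ℤ) (n : ℕ) (E : ℤ) (a : ℕ → ℤ) : Prop where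
  lo1 : ∀ i, i < n → l (i + 2) ≤ a i
  lo2 : ∀ i, i < n → m (i + 2) ≤ a i
  hi1 : ∀ i, i < n → a i ≤ l i
  hi2 : ∀ i, i < n → a i ≤ m i
  anti : ∀ i, i + 1 < n → a (i + 1) ≤ a i
  sum : ∑ r ∈ range n, a r = E
  last1 : ∀ i, i + 1 = n → l (i + 1) ≤ a i
  last2 : ∀ i, i + 1 = n → m (i + 1) ≤ a i

lemma Pt.symm {l m : ℕ → ℤ} {n : ℕ} {E : ℤ} {a : ℕ → ℤ} (h : Pt l m n E a) : Pt m l n E a :=
  ⟨h.lo2, h.lo1, h.hi2, h.hi1, h.anti, h.sum, h.last2, h.last1⟩

lemma K_symm (l m : ℕ → ℤ) (n : ℕ) (a : ℕ → ℤ) : K l m n a = K m l n a := by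
  unfold K phi
  apply Finset.sum_congr rfl
  intro r _
  ring

lemma fs_nonneg (l m : ℕ → ℤ) (n : ℕ) (E : ℤ) (a : ℕ → ℤ) (hl : ∀ i, l (i + 1) ≤ l i)
    (h : Pt l m n E a) (i : ℕ) (hi : i < n) : 0 ≤ fs l a i := by
  unfold fs
  have h1 := h.hi1 i hi
  have h2 := hl i
  by_cases h0 : i = 0
  · subst h0
    simp only [if_true]
    omega
  · rw [if_neg h0]
    have h3 := h.anti (i - 1) (by omega)
    have h4 := h.lo1 (i - 1) (by omega)
    have e1 : i - 1 + 1 = i := by omega
    have e2 : i - 1 + 2 = i + 1 := by omega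
    rw [e1] at h3
    rw [e2] at h4
    omega

/-- total length of the strips -/
lemma sum_fs (l m : ℕ → ℤ) (n : ℕ) (E : ℤ) (a : ℕ → ℤ) (h : Pt l m n E a) :
    ∑ i ∈ range n, fs l a i + 2 * ∑ r ∈ range n, max (l (r + 1) - a r) 0
      = ∑ i ∈ range n, l i - E := by
  rcases Nat.eq_zero_or_pos n with rfl | hn
  · simp [← h.sum]
  obtain ⟨k, rfl⟩ : ∃ k, n = k + 1 := ⟨n - 1, by omega⟩
  have h1 : ∑ i ∈ range (k + 1), (if i = 0 then 0 else max (l i - a (i - 1)) 0)
      = ∑ r ∈ range k, max (l (r + 1) - a r) 0 := by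
    rw [Finset.sum_range_succ']
    simp
  have h2 : ∑ r ∈ range (k + 1), max (l (r + 1) - a r) 0
      = ∑ r ∈ range k, max (l (r + 1) - a r) 0 := by
    rw [Finset.sum_range_succ]
    have := h.last1 k rfl
    rw [max_eq_right (by linarith)]
    ring
  unfold fs
  rw [Finset.sum_sub_distrib, Finset.sum_sub_distrib, Finset.sum_sub_distrib, h1, h.sum, h2]
  ring

lemma sum_all (l m : ℕ → ℤ) (n : ℕ) (E : ℤ) (a : ℕ → ℤ) (h : Pt l m n E a) :
    ∑ i ∈ range n, fs l a i + ∑ i ∈ range n, fs m a i + 2 * K l m n a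
      = ∑ i ∈ range n, l i + ∑ i ∈ range n, m i - 2 * E := by
  have h1 := sum_fs l m n E a h
  have h2 := sum_fs m l n E a h.symm
  unfold K phi
  rw [Finset.sum_add_distrib]
  linarith

lemma two_le (f : ℕ → ℤ) (n i j : ℕ) (hf : ∀ i, i < n → 0 ≤ f i) (hi : i < n) (hj : j < n)
    (hij : i ≠ j) : f i + f j ≤ ∑ r ∈ range n, f r := by
  have h1 : ∑ r ∈ ({i, j} : Finset ℕ), f r ≤ ∑ r ∈ range n, f r := by
    apply Finset.sum_le_sum_of_subset_of_nonneg
    · intro x hx
      simp only [Finset.mem_insert, Finset.mem_singleton] at hx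
      rw [mem_range]
      rcases hx with rfl | rfl <;> assumption
    · intro x hx _
      exact hf x (mem_range.mp hx)
  rwa [Finset.sum_pair hij] at h1

lemma one_le' (f : ℕ → ℤ) (n i : ℕ) (hf : ∀ i, i < n → 0 ≤ f i) (hi : i < n) :
    f i ≤ ∑ r ∈ range n, f r :=
  Finset.single_le_sum (fun x hx => hf x (mem_range.mp hx)) (mem_range.mpr hi)

/-- unit exchange -/
def exch (a : ℕ → ℤ) (p q : ℕ) (r : ℕ) : ℤ :=
  a r + (if r = p then 1 else 0) - (if r = q then 1 else 0)

lemma sum_exch (φ : ℕ → ℤ → ℤ) (n : ℕ) (a : ℕ → ℤ) (p q : ℕ) (hp : p < n) (hq : q < n)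
    (hpq : p ≠ q) :
    ∑ r ∈ range n, φ r (exch a p q r) = ∑ r ∈ range n, φ r (a r)
      + (φ p (a p + 1) - φ p (a p)) + (φ q (a q - 1) - φ q (a q)) := by
  have h1 : ∀ r ∈ range n, φ r (exch a p q r) = φ r (a r)
      + (if r = p then φ r (a r + 1) - φ r (a r) else 0)
      + (if r = q then φ r (a r - 1) - φ r (a r) else 0) := by
    intro r _
    unfold exch
    by_cases h1 : r = p
    · subst h1
      simp [hpq]
    · by_cases h2 : r = q
      · subst h2
        simp [h1]
      · simp [h1, h2]
  rw [Finset.sum_congr rfl h1, Finset.sum_add_distrib, Finset.sum_add_distrib]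
  rw [Finset.sum_ite_eq' (range n) p (fun r => φ r (a r + 1) - φ r (a r)),
    Finset.sum_ite_eq' (range n) q (fun r => φ r (a r - 1) - φ r (a r))]
  simp [hp, hq]

def Feas (l m : ℕ → ℤ) (n : ℕ) (v0 v1 : ℤ) (a : ℕ → ℤ) : Prop :=
  K l m n a ≤ v1 ∧ (∀ j, j < n → D l m n j a ≤ v0) ∧ (∀ j, j < n → D m l n j a ≤ v0)

/-- the strip type is preserved by unit exchanges between infeasible points -/
lemma strip_step (l m : ℕ → ℤ) (n : ℕ) (E v0 v1 : ℤ) (hl : ∀ i, l (i + 1) ≤ l i)
    (hm : ∀ i, m (i + 1) ≤ m i) (hv : v1 ≤ v0)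
    (hV : ∑ i ∈ range n, l i + ∑ i ∈ range n, m i - 2 * E = v0 + v1)
    (a : ℕ → ℤ) (h : Pt l m n E a) (p q : ℕ) (hp : p < n) (hq : q < n) (hpq : p ≠ q)
    (h' : Pt l m n E (exch a p q)) (i : ℕ) (hi : i < n) (hD : v0 + 1 ≤ D l m n i a)
    (hinf : ¬ Feas l m n v0 v1 (exch a p q)) : v0 + 1 ≤ D l m n i (exch a p q) := by
  by_contra hcon
  push Not at hcon
  obtain ⟨a', ha'⟩ : ∃ a', a' = exch a p q := ⟨_, rfl⟩
  -- the exchange formula
  have e1 : D l m n i a' = D l m n i a + (psi l m i p (a p + 1) - psi l m i p (a p))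
      + (psi l m i q (a q - 1) - psi l m i q (a q)) := by
    rw [ha']; exact sum_exch (fun r x => psi l m i r x) n a p q hp hq hpq
  have dp : -2 ≤ psi l m i p (a p + 1) - psi l m i p (a p) := by
    unfold psi
    by_cases c1 : p = i
    · subst c1
      simp only [if_true]
      rw [if_neg (by omega), if_neg (by omega)]
      omega
    · rw [if_neg c1, if_neg c1]
      by_cases c2 : p + 1 = i
      · rw [if_pos c2, if_pos c2, ← c2]
        omega
      · rw [if_neg c2, if_neg c2]
        omega
  have dq : 0 ≤ psi l m i q (a q - 1) - psi l m i q (a q) := by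
    unfold psi
    by_cases c1 : q = i
    · subst c1
      simp only [if_true]
      rw [if_neg (by omega), if_neg (by omega)]
      omega
    · rw [if_neg c1, if_neg c1]
      by_cases c2 : q + 1 = i
      · rw [if_pos c2, if_pos c2, ← c2]
        omega
      · rw [if_neg c2, if_neg c2]
        omega
  rw [← ha'] at hcon hinf h'
  -- totals at `a'`
  have t0 := sum_all l m n E a' h'
  rw [hV] at t0
  have fl : ∀ j, j < n → 0 ≤ fs l a' j := fun j hj => fs_nonneg l m n E a' hl h' j hj
  have fm : ∀ j, j < n → 0 ≤ fs m a' j := fun j hj => fs_nonneg m l n E a' hm h'.symm j hj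
  have Di := D_eq l m n i a' hi
  have gi := one_le' (fs l a') n i fl hi
  have gm0 : 0 ≤ ∑ r ∈ range n, fs m a' r :=
    Finset.sum_nonneg (fun x hx => fm x (mem_range.mp hx))
  by_cases hcase : D l m n i a' = v0
  · -- exact hit
    apply hinf
    refine ⟨by linarith, ?_, ?_⟩
    · intro j hj
      by_cases hji : j = i
      · subst hji; linarith
      · have g2 := two_le (fs l a') n i j fl hi hj (Ne.symm hji)
        have Dj := D_eq l m n j a' hj
        linarith
    · intro j hj
      have g2 := one_le' (fs m a') n j fm hj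
      have Dj := D_eq m l n j a' hj
      rw [← K_symm l m n a'] at Dj
      linarith
  · have hex : D l m n i a' = v0 - 1 ∧ D l m n i a = v0 + 1
        ∧ psi l m i p (a p + 1) - psi l m i p (a p) = -2
        ∧ psi l m i q (a q - 1) - psi l m i q (a q) = 0 := by
      refine ⟨by omega, by omega, by omega, by omega⟩
    obtain ⟨x1, x2, x3, x4⟩ := hex
    -- the strip `q` of `m` is nonempty at `a'`
    have hqi : q ≠ i := by
      intro c1
      subst c1
      unfold psi at x4
      simp only [if_true] at x4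
      rw [if_neg (by omega), if_neg (by omega)] at x4
      omega
    have hmq : m (q + 1) ≤ a q - 1 := by
      unfold psi at x4
      rw [if_neg hqi, if_neg hqi] at x4
      by_cases c2 : q + 1 = i
      · rw [if_pos c2, if_pos c2, ← c2] at x4
        omega
      · rw [if_neg c2, if_neg c2] at x4
        omega
    have haq : a' q = a q - 1 := by
      rw [ha']; unfold exch; rw [if_neg (Ne.symm hpq), if_pos rfl]; ring
    have hgq : 1 ≤ fs m a' q := by
      unfold fs
      rw [haq]
      have k1 := h.hi2 q hq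
      by_cases h0 : q = 0
      · rw [if_pos h0]
        omega
      · rw [if_neg h0]
        have k2 := h.anti (q - 1) (by omega)
        have k3 : a (q - 1) ≤ a' (q - 1) := by
          rw [ha']; unfold exch
          rw [if_neg (show q - 1 ≠ q by omega)]
          split_ifs <;> omega
        have e1 : q - 1 + 1 = q := by omega
        rw [e1] at k2
        omega
    apply hinf
    have gq := one_le' (fs m a') n q fm hq
    refine ⟨by linarith, ?_, ?_⟩
    · intro j hj
      by_cases hji : j = i
      · subst hji; linarith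
      · have g2 := two_le (fs l a') n i j fl hi hj (Ne.symm hji)
        have Dj := D_eq l m n j a' hj
        linarith
    · intro j hj
      have Dj := D_eq m l n j a' hj
      rw [← K_symm l m n a'] at Dj
      by_cases hjq : j = q
      · subst hjq
        by_contra hc
        push Not at hc
        -- now `v0 = v1` and `D'_q (a') = v0 + 1`
        have y1 : v0 = v1 := by linarith
        have y2 : D m l n j a' = v0 + 1 := by linarith
        -- at `a`
        have t0a := sum_all l m n E a h
        rw [hV] at t0a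
        have fla : ∀ j, j < n → 0 ≤ fs l a j := fun j hj => fs_nonneg l m n E a hl h j hj
        have fma : ∀ j, j < n → 0 ≤ fs m a j := fun j hj => fs_nonneg m l n E a hm h.symm j hj
        have Dia := D_eq l m n i a hi
        have gia := one_le' (fs l a) n i fla hi
        have gja := one_le' (fs m a) n j fma hj
        have Dja := D_eq m l n j a hj
        rw [← K_symm l m n a] at Dja
        have y3 : D m l n j a ≤ v0 - 1 := by linarith
        have e2 : D m l n j a' = D m l n j a + (psi m l j p (a p + 1) - psi m l j p (a p))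
            + (psi m l j j (a j - 1) - psi m l j j (a j)) := by
          rw [ha']; exact sum_exch (fun r x => psi m l j r x) n a p j hp hq hpq
        have y4 : 2 ≤ (psi m l j p (a p + 1) - psi m l j p (a p))
            + (psi m l j j (a j - 1) - psi m l j j (a j)) := by linarith
        unfold psi at x3 x4 y4
        simp only [if_true] at y4
        rw [if_neg hqi, if_neg hqi] at x4
        rw [if_neg hpq, if_neg hpq, if_neg (show ¬ (j + 1 = j) by omega),
          if_neg (show ¬ (j + 1 = j) by omega)] at y4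
        by_cases c2 : j + 1 = i
        · rw [if_pos c2, if_pos c2, ← c2] at x4
          rw [← c2] at x3
          by_cases c3 : p = j + 1
          · rw [if_pos c3, if_pos c3, if_neg (show ¬ (p + 1 = j + 1) by omega),
              if_neg (show ¬ (p + 1 = j + 1) by omega), ← c3] at x3
            rw [if_neg (show ¬ (p + 1 = j) by omega), if_neg (show ¬ (p + 1 = j) by omega)] at y4
            omega
          · rw [if_neg c3, if_neg c3, if_neg (show ¬ (p + 1 = j + 1) by omega),
              if_neg (show ¬ (p + 1 = j + 1) by omega)] at x3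
            by_cases c4 : p + 1 = j
            · rw [if_pos c4, if_pos c4, ← c4] at y4
              omega
            · rw [if_neg c4, if_neg c4] at y4
              omega
        · rw [if_neg c2, if_neg c2] at x4
          by_cases c4 : p + 1 = j
          · rw [if_pos c4, if_pos c4, ← c4] at y4
            rw [← c4] at x4
            omega
          · rw [if_neg c4, if_neg c4] at y4
            omega
      · have g2 := two_le (fs m a') n j q fm hj hq hjq
        linarith

end Pool.Agent.NLS
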