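import Mathlib
import Pool.Agent.NLS.Core

set_option autoImplicit false

namespace Pool.Agent.NLS

open Finset

lemma exch_Pt (l m : ℕ → ℤ) (n : ℕ) (E : ℤ) (a b : ℕ → ℤ) (ha : Pt l m n E a)
    (hb : Pt l m n E b) (p q : ℕ) (hp : p < n) (hq : q < n) (hpq : p ≠ q)
    (h1 : a p < b p) (h2 : b q < a q) (h3 : ∀ r, r + 1 = p → b r ≤ a r)
    (h4 : q + 1 < n → a (q + 1) ≤ b (q + 1)) : Pt l m n E (exch a p q) := by
  have hep : ∀ r, r ≠ p → r ≠ q → exch a p q r = a r := by
    intro r c1 c2; unfold exch; rw [if_neg c1, if_neg c2]; ring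
  have eep : exch a p q p = a p + 1 := by
    unfold exch; rw [if_pos rfl, if_neg hpq]; ring
  have eeq : exch a p q q = a q - 1 := by
    unfold exch; rw [if_neg (Ne.symm hpq), if_pos rfl]; ring
  refine ⟨?_, ?_, ?_, ?_, ?_, ?_, ?_, ?_⟩
  · intro i hi
    have k1 := ha.lo1 i hi
    have k2 := hb.lo1 i hi
    by_cases c1 : i = p
    · subst c1; rw [eep]; omega
    · by_cases c2 : i = q
      · subst c2; rw [eeq]; omega
      · rw [hep i c1 c2]; exact k1
  · intro i hi
    have k1 := ha.lo2 i hi
    have k2 := hb.lo2 i hi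
    by_cases c1 : i = p
    · subst c1; rw [eep]; omega
    · by_cases c2 : i = q
      · subst c2; rw [eeq]; omega
      · rw [hep i c1 c2]; exact k1
  · intro i hi
    have k1 := ha.hi1 i hi
    have k2 := hb.hi1 i hi
    by_cases c1 : i = p
    · subst c1; rw [eep]; omega
    · by_cases c2 : i = q
      · subst c2; rw [eeq]; omega
      · rw [hep i c1 c2]; exact k1
  · intro i hi
    have k1 := ha.hi2 i hi
    have k2 := hb.hi2 i hi
    by_cases c1 : i = p
    · subst c1; rw [eep]; omega
    · by_cases c2 : i = q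
      · subst c2; rw [eeq]; omega
      · rw [hep i c1 c2]; exact k1
  · intro i hi
    have k1 := ha.anti i hi
    have k2 := hb.anti i hi
    by_cases c1 : i + 1 = p
    · have k3 := h3 i c1
      subst c1
      rw [eep]
      by_cases c2 : i = q
      · subst c2; rw [eeq]; omega
      · rw [hep i (by omega) c2]; omega
    · by_cases c2 : i + 1 = q
      · subst c2
        rw [eeq]
        by_cases c3 : i = p
        · subst c3; rw [eep]; omega
        · rw [hep i c3 (by omega)]; omega
      · rw [hep (i + 1) c1 c2]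
        by_cases c3 : i = p
        · subst c3; rw [eep]; omega
        · by_cases c4 : i = q
          · subst c4
            have k4 := h4 hi
            rw [eeq]; omega
          · rw [hep i c3 c4]; exact k1
  · have := sum_exch (fun _ x => x) n a p q hp hq hpq
    rw [this, ha.sum]; ring
  · intro i hi
    have k1 := ha.last1 i hi
    have k2 := hb.last1 i hi
    by_cases c1 : i = p
    · subst c1; rw [eep]; omega
    · by_cases c2 : i = q
      · subst c2; rw [eeq]; omega
      · rw [hep i c1 c2]; exact k1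
  · intro i hi
    have k1 := ha.last2 i hi
    have k2 := hb.last2 i hi
    by_cases c1 : i = p
    · subst c1; rw [eep]; omega
    · by_cases c2 : i = q
      · subst c2; rw [eeq]; omega
      · rw [hep i c1 c2]; exact k1

/-- type propagation along unit exchanges -/
lemma propagate (l m : ℕ → ℤ) (n : ℕ) (E v0 v1 : ℤ) (hl : ∀ i, l (i + 1) ≤ l i)
    (hm : ∀ i, m (i + 1) ≤ m i) (hv : v1 ≤ v0)
    (hV : ∑ i ∈ range n, l i + ∑ i ∈ range n, m i - 2 * E = v0 + v1)
    (hinf : ∀ a, Pt l m n E a → ¬ Feas l m n v0 v1 a) (i : ℕ) (hi : i < n)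
    (b : ℕ → ℤ) (hb : Pt l m n E b) :
    ∀ N : ℕ, ∀ a : ℕ → ℤ, Pt l m n E a → v0 + 1 ≤ D l m n i a →
      ∑ r ∈ range n, |a r - b r| ≤ N → v0 + 1 ≤ D l m n i b := by
  intro N
  induction N with
  | zero =>
    intro a ha hD hN
    have h0 : ∀ r, r < n → a r = b r := by
      intro r hr
      have h1 : |a r - b r| ≤ ∑ r ∈ range n, |a r - b r| :=
        Finset.single_le_sum (f := fun r => |a r - b r|) (fun x _ => abs_nonneg _)
          (mem_range.mpr hr)
      have h2 : |a r - b r| ≤ 0 := by
        refine h1.trans ?_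
        simpa using hN
      have := abs_nonpos_iff.mp h2
      omega
    have : D l m n i b = D l m n i a := by
      unfold D
      apply Finset.sum_congr rfl
      intro r hr
      rw [h0 r (mem_range.mp hr)]
    rw [this]; exact hD
  | succ N ih =>
    intro a ha hD hN
    by_cases heq : ∀ r, r < n → a r = b r
    · have : D l m n i b = D l m n i a := by
        unfold D
        apply Finset.sum_congr rfl
        intro r hr
        rw [heq r (mem_range.mp hr)]
      rw [this]; exact hD
    -- there are indices below and above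
    have hsum : ∑ r ∈ range n, (a r - b r) = 0 := by
      rw [Finset.sum_sub_distrib, ha.sum, hb.sum]; ring
    have hup : ∃ r, r < n ∧ a r < b r := by
      by_contra hc
      push Not at hc
      have h0 := (Finset.sum_eq_zero_iff_of_nonneg (s := range n) (f := fun r => a r - b r)
        (fun r hr => by have := hc r (mem_range.mp hr); omega)).mp hsum
      apply heq
      intro r hr
      have := h0 r (mem_range.mpr hr)
      omega
    have hdn : ∃ r, r < n ∧ b r < a r := by
      by_contra hc
      push Not at hc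
      have hsum' : ∑ r ∈ range n, (b r - a r) = 0 := by
        rw [Finset.sum_sub_distrib, ha.sum, hb.sum]; ring
      have h0 := (Finset.sum_eq_zero_iff_of_nonneg (s := range n) (f := fun r => b r - a r)
        (fun r hr => by have := hc r (mem_range.mp hr); omega)).mp hsum'
      apply heq
      intro r hr
      have := h0 r (mem_range.mpr hr)
      omega
    classical
    -- smallest `p`
    obtain ⟨p, ⟨hp, hpa⟩, hpmin⟩ : ∃ p, (p < n ∧ a p < b p) ∧ ∀ r, r < p → ¬ (r < n ∧ a r < b r) :=
      ⟨Nat.find hup, Nat.find_spec hup, fun r hr => Nat.find_min hup hr⟩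
    -- largest `q`
    obtain ⟨q, hq, hqa, hqmax⟩ : ∃ q, q < n ∧ b q < a q ∧ ∀ r, q < r → r < n → ¬ (b r < a r) := by
      obtain ⟨r0, hr0, hr0'⟩ := hdn
      obtain ⟨q, hqmem, hqmax⟩ := Finset.exists_max_image ((range n).filter (fun r => b r < a r))
        (fun r => r) ⟨r0, by simp [hr0, hr0']⟩
      rw [Finset.mem_filter, mem_range] at hqmem
      refine ⟨q, hqmem.1, hqmem.2, ?_⟩
      intro r hr hrn hc
      have := hqmax r (by simp [hrn, hc])
      omega
    have hpq : p ≠ q := by rintro rfl; omega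
    have hPt := exch_Pt l m n E a b ha hb p q hp hq hpq hpa hqa
      (by
        intro r hr
        have := hpmin r (by omega)
        by_contra hc
        exact this ⟨by omega, by omega⟩)
      (by
        intro hqn
        have := hqmax (q + 1) (by omega) hqn
        omega)
    have hstep := strip_step l m n E v0 v1 hl hm hv hV a ha p q hp hq hpq hPt i hi hD
      (hinf _ hPt)
    refine ih (exch a p q) hPt hstep ?_
    have hs := sum_exch (fun r x => |x - b r|) n a p q hp hq hpq
    rw [hs]
    have k1 : |a p + 1 - b p| - |a p - b p| = -1 := by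
      rw [abs_of_nonpos (by omega), abs_of_nonpos (by omega)]; ring
    have k2 : |a q - 1 - b q| - |a q - b q| = -1 := by
      rw [abs_of_nonneg (by omega), abs_of_nonneg (by omega)]; ring
    rw [k1, k2]
    push_cast at hN
    linarith

/-- the combinatorial core -/
theorem core (l m : ℕ → ℤ) (n : ℕ) (E v0 v1 : ℤ) (hl : ∀ i, l (i + 1) ≤ l i)
    (hm : ∀ i, m (i + 1) ≤ m i) (hv : v1 ≤ v0)
    (hV : ∑ i ∈ range n, l i + ∑ i ∈ range n, m i - 2 * E = v0 + v1)
    (hK : ∃ a, Pt l m n E a ∧ K l m n a ≤ v1)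
    (h1 : ∀ i, i < n → ∃ a, Pt l m n E a ∧ D l m n i a ≤ v0)
    (h2 : ∀ i, i < n → ∃ a, Pt l m n E a ∧ D m l n i a ≤ v0) :
    ∃ a, Pt l m n E a ∧ Feas l m n v0 v1 a := by
  by_contra hcon
  push Not at hcon
  have hinf : ∀ a, Pt l m n E a → ¬ Feas l m n v0 v1 a := hcon
  have hV' : ∑ i ∈ range n, m i + ∑ i ∈ range n, l i - 2 * E = v0 + v1 := by linarith
  have hinf' : ∀ a, Pt m l n E a → ¬ Feas m l n v0 v1 a := by
    intro a ha hf
    obtain ⟨f1, f2, f3⟩ := hf
    exact hinf a ha.symm ⟨by rw [K_symm]; exact f1, f3, f2⟩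
  obtain ⟨a0, ha0, hK0⟩ := hK
  have hn0 := hinf a0 ha0
  unfold Feas at hn0
  have hex : (∃ i, i < n ∧ v0 + 1 ≤ D l m n i a0) ∨ (∃ i, i < n ∧ v0 + 1 ≤ D m l n i a0) := by
    by_contra hc
    push Not at hc
    apply hn0
    refine ⟨hK0, fun j hj => ?_, fun j hj => ?_⟩
    · have := hc.1 j hj; omega
    · have := hc.2 j hj; omega
  have key : ∀ (l m : ℕ → ℤ) (a b : ℕ → ℤ), ∃ N : ℕ, ∑ r ∈ range n, |a r - b r| ≤ N := by
    intro _ _ a b
    refine ⟨(∑ r ∈ range n, |a r - b r|).toNat, ?_⟩
    rw [Int.toNat_of_nonneg (Finset.sum_nonneg (fun _ _ => abs_nonneg _))]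
  rcases hex with ⟨i, hi, hD⟩ | ⟨i, hi, hD⟩
  · obtain ⟨b, hb, hDb⟩ := h1 i hi
    obtain ⟨N, hN⟩ := key l m a0 b
    have := propagate l m n E v0 v1 hl hm hv hV hinf i hi b hb N a0 ha0 hD hN
    omega
  · obtain ⟨b, hb, hDb⟩ := h2 i hi
    obtain ⟨N, hN⟩ := key l m a0 b
    have := propagate m l n E v0 v1 hm hl hv hV' hinf' i hi b hb.symm N a0 ha0.symm hD hN
    omega

end Pool.Agent.NLS
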