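import Mathlib
import Pool.Agent.NLS.Conn

set_option autoImplicit false

namespace Pool.Agent.NLS

open Finset

/-- filling between two antitone sequences -/
lemma afill (n : ℕ) (lo hi : ℕ → ℤ) (hlo : ∀ i, i + 1 < n → lo (i + 1) ≤ lo i)
    (hhi : ∀ i, i + 1 < n → hi (i + 1) ≤ hi i) (h : ∀ i, i < n → lo i ≤ hi i) :
    ∀ t : ℕ, (t : ℤ) ≤ ∑ r ∈ range n, hi r - ∑ r ∈ range n, lo r →
    ∃ a : ℕ → ℤ, (∀ i, i < n → lo i ≤ a i ∧ a i ≤ hi i) ∧
      (∀ i, i + 1 < n → a (i + 1) ≤ a i) ∧ ∑ r ∈ range n, a r = ∑ r ∈ range n, lo r + t := by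
  intro t
  induction t with
  | zero =>
    intro _
    exact ⟨lo, fun i hi' => ⟨le_refl _, h i hi'⟩, hlo, by simp⟩
  | succ t ih =>
    intro ht
    obtain ⟨a, h1, h2, h3⟩ := ih (by push_cast at ht; omega)
    have hex : ∃ r, r < n ∧ a r < hi r := by
      by_contra hc
      push Not at hc
      have : ∑ r ∈ range n, hi r ≤ ∑ r ∈ range n, a r :=
        Finset.sum_le_sum (fun r hr => hc r (mem_range.mp hr))
      push_cast at ht
      omega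
    classical
    obtain ⟨p, ⟨hp, hpa⟩, hpmin⟩ : ∃ p, (p < n ∧ a p < hi p) ∧ ∀ r, r < p → ¬ (r < n ∧ a r < hi r) :=
      ⟨Nat.find hex, Nat.find_spec hex, fun r hr => Nat.find_min hex hr⟩
    refine ⟨fun r => a r + (if r = p then 1 else 0), ?_, ?_, ?_⟩
    · intro i hi'
      have := h1 i hi'
      by_cases c : i = p
      · subst c; simp only [if_true]; omega
      · simp only [if_neg c]; omega
    · intro i hi'
      have k1 := h2 i hi'
      beta_reduce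
      by_cases c : i + 1 = p
      · have k2 := hpmin i (by omega)
        have k3 := hhi i hi'
        have k4 : hi i ≤ a i := by
          by_contra hc
          exact k2 ⟨by omega, by omega⟩
        subst c
        rw [if_pos rfl, if_neg (by omega)]
        omega
      · rw [if_neg c]
        split_ifs <;> omega
    · rw [Finset.sum_add_distrib, h3, Finset.sum_ite_eq' (range n) p (fun _ => (1:ℤ))]
      simp [hp]
      ring

lemma afill' (n : ℕ) (lo hi : ℕ → ℤ) (hlo : ∀ i, i + 1 < n → lo (i + 1) ≤ lo i)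
    (hhi : ∀ i, i + 1 < n → hi (i + 1) ≤ hi i) (h : ∀ i, i < n → lo i ≤ hi i) (E : ℤ)
    (h1 : ∑ r ∈ range n, lo r ≤ E) (h2 : E ≤ ∑ r ∈ range n, hi r) :
    ∃ a : ℕ → ℤ, (∀ i, i < n → lo i ≤ a i ∧ a i ≤ hi i) ∧
      (∀ i, i + 1 < n → a (i + 1) ≤ a i) ∧ ∑ r ∈ range n, a r = E := by
  obtain ⟨a, k1, k2, k3⟩ := afill n lo hi hlo hhi h (E - ∑ r ∈ range n, lo r).toNat
    (by rw [Int.toNat_of_nonneg (by omega)]; omega)
  refine ⟨a, k1, k2, ?_⟩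
  rw [k3, Int.toNat_of_nonneg (by omega)]; ring

/-- integral minimisation of a separable convex function with slopes `-2, -1, 0` -/
lemma minG (n : ℕ) (lo u w hi : ℕ → ℤ) (E : ℤ)
    (alo : ∀ i, i + 1 < n → lo (i + 1) ≤ lo i) (au : ∀ i, i + 1 < n → u (i + 1) ≤ u i)
    (aw : ∀ i, i + 1 < n → w (i + 1) ≤ w i) (ahi : ∀ i, i + 1 < n → hi (i + 1) ≤ hi i)
    (h1 : ∀ i, i < n → lo i ≤ u i) (h2 : ∀ i, i < n → u i ≤ w i) (h3 : ∀ i, i < n → w i ≤ hi i)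
    (ψ : ℕ → ℤ → ℤ) (Ψ : ℕ → ℝ → ℝ)
    (ha : ∀ r, r < n → ∀ x, lo r ≤ x → x ≤ u r → ψ r x = ψ r (lo r) - 2 * (x - lo r))
    (hb : ∀ r, r < n → ∀ x, u r ≤ x → x ≤ w r → ψ r x = ψ r (u r) - (x - u r))
    (hc : ∀ r, r < n → ∀ x, w r ≤ x → x ≤ hi r → ψ r x = ψ r (hi r))
    (hd1 : ∀ r, r < n → ∀ y : ℝ, (lo r : ℝ) ≤ y → y ≤ hi r →
      (ψ r (lo r) : ℝ) - 2 * (y - lo r) ≤ Ψ r y)
    (hd2 : ∀ r, r < n → ∀ y : ℝ, (lo r : ℝ) ≤ y → y ≤ hi r →
      (ψ r (u r) : ℝ) - (y - u r) ≤ Ψ r y)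
    (hd3 : ∀ r, r < n → ∀ y : ℝ, (lo r : ℝ) ≤ y → y ≤ hi r → (ψ r (hi r) : ℝ) ≤ Ψ r y)
    (A : ℕ → ℝ) (hA1 : ∀ r, r < n → (lo r : ℝ) ≤ A r) (hA2 : ∀ r, r < n → A r ≤ hi r)
    (hAE : ∑ r ∈ range n, A r = E) :
    ∃ a : ℕ → ℤ, (∀ i, i < n → lo i ≤ a i ∧ a i ≤ hi i) ∧
      (∀ i, i + 1 < n → a (i + 1) ≤ a i) ∧ ∑ r ∈ range n, a r = E ∧
      ((∑ r ∈ range n, ψ r (a r) : ℤ) : ℝ) ≤ ∑ r ∈ range n, Ψ r (A r) := by
  have hE1 : ∑ r ∈ range n, lo r ≤ E := by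
    have : ((∑ r ∈ range n, lo r : ℤ) : ℝ) ≤ E := by
      rw [← hAE]; push_cast
      exact Finset.sum_le_sum (fun r hr => hA1 r (mem_range.mp hr))
    exact_mod_cast this
  have hE2 : E ≤ ∑ r ∈ range n, hi r := by
    have : (E : ℝ) ≤ ((∑ r ∈ range n, hi r : ℤ) : ℝ) := by
      rw [← hAE]; push_cast
      exact Finset.sum_le_sum (fun r hr => hA2 r (mem_range.mp hr))
    exact_mod_cast this
  rcases le_total E (∑ r ∈ range n, u r) with c1 | c1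
  · obtain ⟨a, k1, k2, k3⟩ := afill' n lo u alo au h1 E hE1 c1
    refine ⟨a, fun i hi' => ⟨(k1 i hi').1, (k1 i hi').2.trans ((h2 i hi').trans (h3 i hi'))⟩,
      k2, k3, ?_⟩
    have e1 : ∑ r ∈ range n, ψ r (a r) = ∑ r ∈ range n, (ψ r (lo r) + 2 * lo r) - 2 * E := by
      rw [← k3, Finset.mul_sum, ← Finset.sum_sub_distrib]
      apply Finset.sum_congr rfl
      intro r hr
      have hr' := mem_range.mp hr
      rw [ha r hr' (a r) (k1 r hr').1 (k1 r hr').2]; ring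
    have e2 : (∑ r ∈ range n, ((ψ r (lo r) : ℝ) + 2 * lo r)) - 2 * E ≤ ∑ r ∈ range n, Ψ r (A r) := by
      rw [← hAE, Finset.mul_sum, ← Finset.sum_sub_distrib]
      apply Finset.sum_le_sum
      intro r hr
      have hr' := mem_range.mp hr
      have := hd1 r hr' (A r) (hA1 r hr') (hA2 r hr')
      linarith
    rw [e1]; push_cast; exact e2
  rcases le_total E (∑ r ∈ range n, w r) with c2 | c2
  · obtain ⟨a, k1, k2, k3⟩ := afill' n u w au aw h2 E c1 c2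
    refine ⟨a, fun i hi' => ⟨(h1 i hi').trans (k1 i hi').1, (k1 i hi').2.trans (h3 i hi')⟩,
      k2, k3, ?_⟩
    have e1 : ∑ r ∈ range n, ψ r (a r) = ∑ r ∈ range n, (ψ r (u r) + u r) - E := by
      rw [← k3, ← Finset.sum_sub_distrib]
      apply Finset.sum_congr rfl
      intro r hr
      have hr' := mem_range.mp hr
      rw [hb r hr' (a r) (k1 r hr').1 (k1 r hr').2]; ring
    have e2 : (∑ r ∈ range n, ((ψ r (u r) : ℝ) + u r)) - E ≤ ∑ r ∈ range n, Ψ r (A r) := by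
      rw [← hAE, ← Finset.sum_sub_distrib]
      apply Finset.sum_le_sum
      intro r hr
      have hr' := mem_range.mp hr
      have := hd2 r hr' (A r) (hA1 r hr') (hA2 r hr')
      linarith
    rw [e1]; push_cast; exact e2
  · obtain ⟨a, k1, k2, k3⟩ := afill' n w hi aw ahi h3 E c2 hE2
    refine ⟨a, fun i hi' => ⟨(h1 i hi').trans ((h2 i hi').trans (k1 i hi').1), (k1 i hi').2⟩,
      k2, k3, ?_⟩
    have e1 : ∑ r ∈ range n, ψ r (a r) = ∑ r ∈ range n, ψ r (hi r) := by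
      apply Finset.sum_congr rfl
      intro r hr
      have hr' := mem_range.mp hr
      rw [hc r hr' (a r) (k1 r hr').1 (k1 r hr').2]
    rw [e1]; push_cast
    apply Finset.sum_le_sum
    intro r hr
    have hr' := mem_range.mp hr
    exact hd3 r hr' (A r) (hA1 r hr') (hA2 r hr')

/-- real versions -/
noncomputable def phiR (l m : ℕ → ℤ) (r : ℕ) (y : ℝ) : ℝ :=
  max ((l (r + 1) : ℝ) - y) 0 + max ((m (r + 1) : ℝ) - y) 0

noncomputable def psiR (l m : ℕ → ℤ) (i r : ℕ) (y : ℝ) : ℝ :=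
  max ((l (r + 1) : ℝ) - y) 0 + max ((m (r + 1) : ℝ) - y) 0
    + (if r = i then (l i : ℝ) - y - max ((l (i + 1) : ℝ) - y) 0 else 0)
    - (if r + 1 = i then max ((l i : ℝ) - y) 0 else 0)

/-- real points -/
structure PtR (l m : ℕ → ℤ) (n : ℕ) (E : ℤ) (A : ℕ → ℝ) : Prop where
  lo1 : ∀ i, i < n → (l (i + 2) : ℝ) ≤ A i
  lo2 : ∀ i, i < n → (m (i + 2) : ℝ) ≤ A i
  hi1 : ∀ i, i < n → A i ≤ l i
  hi2 : ∀ i, i < n → A i ≤ m i
  sum : ∑ r ∈ range n, A r = E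
  last1 : ∀ i, i + 1 = n → (l (i + 1) : ℝ) ≤ A i
  last2 : ∀ i, i + 1 = n → (m (i + 1) : ℝ) ≤ A i

/-- lower end of the box -/
def loz (l m : ℕ → ℤ) (r : ℕ) : ℤ := max (l (r + 2)) (m (r + 2))
def hiz (l m : ℕ → ℤ) (r : ℕ) : ℤ := min (l r) (m r)

end Pool.Agent.NLS
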