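import Mathlib
import Pool.Agent.NLS.Fill

set_option autoImplicit false

namespace Pool.Agent.NLS

open Finset

lemma box_le (l m : ℕ → ℤ) (n : ℕ) (E : ℤ) (A : ℕ → ℝ) (hA : PtR l m n E A) (i : ℕ)
    (hi : i < n) : loz l m i ≤ hiz l m i := by
  have a1 := hA.lo1 i hi
  have a2 := hA.lo2 i hi
  have a3 := hA.hi1 i hi
  have a4 := hA.hi2 i hi
  have b1 : l (i + 2) ≤ l i := by exact_mod_cast a1.trans a3
  have b2 : l (i + 2) ≤ m i := by exact_mod_cast a1.trans a4
  have b3 : m (i + 2) ≤ l i := by exact_mod_cast a2.trans a3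
  have b4 : m (i + 2) ≤ m i := by exact_mod_cast a2.trans a4
  unfold loz hiz
  omega

lemma lo_A (l m : ℕ → ℤ) (n : ℕ) (E : ℤ) (A : ℕ → ℝ) (hA : PtR l m n E A) (r : ℕ)
    (hr : r < n) : ((loz l m r : ℤ) : ℝ) ≤ A r := by
  unfold loz
  push_cast
  exact max_le (hA.lo1 r hr) (hA.lo2 r hr)

lemma A_hi (l m : ℕ → ℤ) (n : ℕ) (E : ℤ) (A : ℕ → ℝ) (hA : PtR l m n E A) (r : ℕ)
    (hr : r < n) : A r ≤ ((hiz l m r : ℤ) : ℝ) := by
  unfold hiz
  push_cast
  exact le_min (hA.hi1 r hr) (hA.hi2 r hr)

lemma mkPt (l m : ℕ → ℤ) (n : ℕ) (E : ℤ) (hlz : ∀ i, n ≤ i → l i = 0) (hmz : ∀ i, n ≤ i → m i = 0)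
    (a : ℕ → ℤ) (h1 : ∀ i, i < n → loz l m i ≤ a i ∧ a i ≤ hiz l m i)
    (h2 : ∀ i, i + 1 < n → a (i + 1) ≤ a i) (h3 : ∑ r ∈ range n, a r = E) : Pt l m n E a := by
  refine ⟨?_, ?_, ?_, ?_, h2, h3, ?_, ?_⟩
  · intro i hi; have := h1 i hi; unfold loz hiz at this; omega
  · intro i hi; have := h1 i hi; unfold loz hiz at this; omega
  · intro i hi; have := h1 i hi; unfold loz hiz at this; omega
  · intro i hi; have := h1 i hi; unfold loz hiz at this; omega
  · intro i hi
    have := h1 i (by omega)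
    have e1 := hlz (i + 2) (by omega)
    have e2 := hmz (i + 2) (by omega)
    have e3 := hlz (i + 1) (by omega)
    unfold loz hiz at this; omega
  · intro i hi
    have := h1 i (by omega)
    have e1 := hlz (i + 2) (by omega)
    have e2 := hmz (i + 2) (by omega)
    have e3 := hmz (i + 1) (by omega)
    unfold loz hiz at this; omega

/-- three real convexity inequalities for one positive part -/
lemma pos1 (L x : ℤ) (y : ℝ) (h : (x : ℝ) ≤ y) :
    ((max (L - x) 0 : ℤ) : ℝ) - (y - x) ≤ max ((L : ℝ) - y) 0 := by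
  push_cast
  rcases le_total ((L : ℝ) - x) 0 with c | c
  · rw [max_eq_right c]
    exact le_trans (by linarith) (le_max_right _ _)
  · rw [max_eq_left c]
    exact le_trans (by linarith) (le_max_left _ _)

lemma pos0 (L x : ℤ) (y : ℝ) (h : y ≤ (x : ℝ)) :
    ((max (L - x) 0 : ℤ) : ℝ) ≤ max ((L : ℝ) - y) 0 := by
  push_cast
  exact max_le_max (by linarith) (le_refl _)

/-- slope `-1` through a point `x ≥ min(L, M)`, two positive parts -/
lemma pos2 (L M x : ℤ) (y : ℝ) (lo : ℤ) (hlo : (lo : ℝ) ≤ y) (hx : x = max lo (min L M)) :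
    ((max (L - x) 0 + max (M - x) 0 : ℤ) : ℝ) - (y - x)
      ≤ max ((L : ℝ) - y) 0 + max ((M : ℝ) - y) 0 := by
  rcases le_total (x : ℝ) y with c | c
  · -- `y ≥ x ≥ min`: at most one part is positive at `x`
    have hx' : L ≤ x ∨ M ≤ x := by omega
    rcases hx' with h | h
    · have e : max (L - x) 0 = 0 := max_eq_right (by omega)
      rw [e, zero_add]
      have := pos1 M x y c
      have h0 : (0 : ℝ) ≤ max ((L : ℝ) - y) 0 := le_max_right _ _
      linarith
    · have e : max (M - x) 0 = 0 := max_eq_right (by omega)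
      rw [e, add_zero]
      have := pos1 L x y c
      have h0 : (0 : ℝ) ≤ max ((M : ℝ) - y) 0 := le_max_right _ _
      linarith
  · -- `lo ≤ y ≤ x`
    rcases le_total lo (min L M) with d | d
    · have hxx : x = min L M := by omega
      have e1 : (x : ℝ) ≤ L := by exact_mod_cast (show x ≤ L by omega)
      have e2 : (x : ℝ) ≤ M := by exact_mod_cast (show x ≤ M by omega)
      have f1 : max (L - x) 0 = L - x := max_eq_left (by omega)
      have f2 : max (M - x) 0 = M - x := max_eq_left (by omega)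
      rw [f1, f2]
      push_cast
      have g1 : (L : ℝ) - y ≤ max ((L : ℝ) - y) 0 := le_max_left _ _
      have g2 : (M : ℝ) - y ≤ max ((M : ℝ) - y) 0 := le_max_left _ _
      linarith
    · have hxx : x = lo := by omega
      have : y = x := le_antisymm c (by rw [hxx]; exact hlo)
      rw [this]
      push_cast
      linarith

/-- an integral point with small `K` -/
theorem minK (l m : ℕ → ℤ) (n : ℕ) (E : ℤ) (hl : ∀ i, l (i + 1) ≤ l i) (hm : ∀ i, m (i + 1) ≤ m i)
    (hlz : ∀ i, n ≤ i → l i = 0) (hmz : ∀ i, n ≤ i → m i = 0) (A : ℕ → ℝ) (hA : PtR l m n E A)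
    (v1 : ℤ) (hK : ∑ r ∈ range n, phiR l m r (A r) ≤ v1) :
    ∃ a, Pt l m n E a ∧ K l m n a ≤ v1 := by
  have hbox := box_le l m n E A hA
  obtain ⟨a, k1, k2, k3, k4⟩ := minG n (loz l m)
    (fun r => max (loz l m r) (min (l (r + 1)) (m (r + 1))))
    (fun r => max (loz l m r) (min (hiz l m r) (max (l (r + 1)) (m (r + 1))))) (hiz l m) E
    (by
      intro i hi
      have := hl (i + 2); have := hm (i + 2)
      have f1 : l (i + 1 + 2) = l (i + 3) := rfl
      have f2 : m (i + 1 + 2) = m (i + 3) := rfl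
      have f3 : l (i + 2 + 1) = l (i + 3) := rfl
      have f4 : m (i + 2 + 1) = m (i + 3) := rfl
      have f5 : l (i + 1 + 1) = l (i + 2) := rfl
      have f6 : m (i + 1 + 1) = m (i + 2) := rfl
      unfold loz; omega)
    (by
      intro i hi
      have := hl (i + 2); have := hm (i + 2); have := hl (i + 1); have := hm (i + 1)
      have f1 : l (i + 1 + 2) = l (i + 3) := rfl
      have f2 : m (i + 1 + 2) = m (i + 3) := rfl
      have f3 : l (i + 2 + 1) = l (i + 3) := rfl
      have f4 : m (i + 2 + 1) = m (i + 3) := rfl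
      have f5 : l (i + 1 + 1) = l (i + 2) := rfl
      have f6 : m (i + 1 + 1) = m (i + 2) := rfl
      unfold loz; omega)
    (by
      intro i hi
      have := hl (i + 2); have := hm (i + 2); have := hl (i + 1); have := hm (i + 1)
      have := hl i; have := hm i
      have f1 : l (i + 1 + 2) = l (i + 3) := rfl
      have f2 : m (i + 1 + 2) = m (i + 3) := rfl
      have f3 : l (i + 2 + 1) = l (i + 3) := rfl
      have f4 : m (i + 2 + 1) = m (i + 3) := rfl
      have f5 : l (i + 1 + 1) = l (i + 2) := rfl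
      have f6 : m (i + 1 + 1) = m (i + 2) := rfl
      unfold loz hiz; omega)
    (by intro i hi; have := hl i; have := hm i; unfold hiz; omega)
    (by intro i hi; omega)
    (by intro i hi; have := hl i; have := hm i; unfold loz hiz; omega)
    (by intro i hi; have := hbox i hi; omega)
    (fun r x => phi l m r x) (fun r y => phiR l m r y)
    (by intro r hr x x1 x2; unfold phi; omega)
    (by
      intro r hr x x1 x2
      have := hl r; have := hm r; have := hbox r hr
      unfold phi; unfold loz hiz at *; omega)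
    (by
      intro r hr x x1 x2
      unfold phi; unfold hiz at *; omega)
    (by
      intro r hr y y1 y2
      unfold phi phiR
      have p1 := pos1 (l (r + 1)) (loz l m r) y y1
      have p2 := pos1 (m (r + 1)) (loz l m r) y y1
      push_cast at p1 p2 ⊢
      linarith)
    (by
      intro r hr y y1 y2
      unfold phi phiR
      exact pos2 (l (r + 1)) (m (r + 1)) _ y (loz l m r) y1 rfl)
    (by
      intro r hr y y1 y2
      unfold phi phiR
      have p1 := pos0 (l (r + 1)) (hiz l m r) y y2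
      have p2 := pos0 (m (r + 1)) (hiz l m r) y y2
      push_cast at p1 p2 ⊢
      linarith)
    A (lo_A l m n E A hA) (A_hi l m n E A hA) hA.sum
  refine ⟨a, mkPt l m n E hlz hmz a k1 k2 k3, ?_⟩
  have : ((K l m n a : ℤ) : ℝ) ≤ v1 := by
    unfold K
    exact k4.trans hK
  exact_mod_cast this

end Pool.Agent.NLS
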