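import Mathlib
import Pool.Agent.NLS.Min

set_option autoImplicit false

namespace Pool.Agent.NLS

open Finset

lemma psi_i (l m : ℕ → ℤ) (i : ℕ) (x : ℤ) :
    psi l m i i x = max (m (i + 1) - x) 0 + (l i - x) := by
  unfold psi
  rw [if_pos rfl, if_neg (by omega)]
  ring

lemma psi_p (l m : ℕ → ℤ) (i r : ℕ) (x : ℤ) (h : r + 1 = i) :
    psi l m i r x = max (m (r + 1) - x) 0 := by
  unfold psi
  rw [if_neg (by omega), if_pos h, ← h]
  ring

lemma psi_o (l m : ℕ → ℤ) (i r : ℕ) (x : ℤ) (h1 : r ≠ i) (h2 : r + 1 ≠ i) :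
    psi l m i r x = phi l m r x := by
  unfold psi phi
  rw [if_neg h1, if_neg h2]
  ring

lemma psiR_i (l m : ℕ → ℤ) (i : ℕ) (x : ℝ) :
    psiR l m i i x = max ((m (i + 1) : ℝ) - x) 0 + ((l i : ℝ) - x) := by
  unfold psiR
  rw [if_pos rfl, if_neg (by omega)]
  ring

lemma psiR_p (l m : ℕ → ℤ) (i r : ℕ) (x : ℝ) (h : r + 1 = i) :
    psiR l m i r x = max ((m (r + 1) : ℝ) - x) 0 := by
  unfold psiR
  rw [if_neg (by omega), if_pos h, ← h]
  ring

lemma psiR_o (l m : ℕ → ℤ) (i r : ℕ) (x : ℝ) (h1 : r ≠ i) (h2 : r + 1 ≠ i) :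
    psiR l m i r x = phiR l m r x := by
  unfold psiR phiR
  rw [if_neg h1, if_neg h2]
  ring

/-- slope `-1` through `u = max lo (min hi M)`, one positive part -/
lemma pos3 (M lo hi : ℤ) (y : ℝ) (h2 : y ≤ hi) (u : ℤ) (hu : u = max lo (min hi M)) :
    ((max (M - u) 0 : ℤ) : ℝ) ≤ max ((M : ℝ) - y) 0 := by
  rcases le_total y (u : ℝ) with c | c
  · exact pos0 M u y c
  · by_cases d : M ≤ u
    · have e : max (M - u) 0 = 0 := max_eq_right (by omega)
      rw [e]
      push_cast
      exact le_max_right _ _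
    · have huu : hi ≤ u := by omega
      have h3 : (hi : ℝ) ≤ u := by exact_mod_cast huu
      exact pos0 M u y (h2.trans h3)

def uD (l m : ℕ → ℤ) (i r : ℕ) : ℤ :=
  if r = i then max (loz l m r) (min (hiz l m r) (m (r + 1)))
  else if r + 1 = i then loz l m r
  else max (loz l m r) (min (l (r + 1)) (m (r + 1)))

def wD (l m : ℕ → ℤ) (i r : ℕ) : ℤ :=
  if r = i then hiz l m r
  else if r + 1 = i then max (loz l m r) (min (hiz l m r) (m (r + 1)))
  else max (loz l m r) (min (hiz l m r) (max (l (r + 1)) (m (r + 1))))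

lemma uD_i (l m : ℕ → ℤ) (i : ℕ) :
    uD l m i i = max (loz l m i) (min (hiz l m i) (m (i + 1))) := by
  unfold uD; rw [if_pos rfl]
lemma uD_p (l m : ℕ → ℤ) (i r : ℕ) (h : r + 1 = i) : uD l m i r = loz l m r := by
  unfold uD; rw [if_neg (by omega), if_pos h]
lemma uD_o (l m : ℕ → ℤ) (i r : ℕ) (h1 : r ≠ i) (h2 : r + 1 ≠ i) :
    uD l m i r = max (loz l m r) (min (l (r + 1)) (m (r + 1))) := by
  unfold uD; rw [if_neg h1, if_neg h2]
lemma wD_i (l m : ℕ → ℤ) (i : ℕ) : wD l m i i = hiz l m i := by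
  unfold wD; rw [if_pos rfl]
lemma wD_p (l m : ℕ → ℤ) (i r : ℕ) (h : r + 1 = i) :
    wD l m i r = max (loz l m r) (min (hiz l m r) (m (r + 1))) := by
  unfold wD; rw [if_neg (by omega), if_pos h]
lemma wD_o (l m : ℕ → ℤ) (i r : ℕ) (h1 : r ≠ i) (h2 : r + 1 ≠ i) :
    wD l m i r = max (loz l m r) (min (hiz l m r) (max (l (r + 1)) (m (r + 1)))) := by
  unfold wD; rw [if_neg h1, if_neg h2]

lemma uD_anti (l m : ℕ → ℤ) (i : ℕ) (hl : ∀ i, l (i + 1) ≤ l i) (hm : ∀ i, m (i + 1) ≤ m i)
    (r : ℕ) (hb1 : loz l m r ≤ hiz l m r) (hb2 : loz l m (r + 1) ≤ hiz l m (r + 1)) :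
    uD l m i (r + 1) ≤ uD l m i r := by
  have g1 := hl (r + 2); have g2 := hm (r + 2); have g3 := hl (r + 1); have g4 := hm (r + 1)
  have g5 := hl r; have g6 := hm r
  have f1 : l (r + 1 + 2) = l (r + 3) := rfl
  have f2 : m (r + 1 + 2) = m (r + 3) := rfl
  have f3 : l (r + 2 + 1) = l (r + 3) := rfl
  have f4 : m (r + 2 + 1) = m (r + 3) := rfl
  have f5 : l (r + 1 + 1) = l (r + 2) := rfl
  have f6 : m (r + 1 + 1) = m (r + 2) := rfl
  by_cases c1 : r = i
  · subst c1
    rw [uD_i, uD_o l m r (r + 1) (by omega) (by omega)]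
    unfold loz hiz at *; omega
  · by_cases c2 : r + 1 = i
    · subst c2
      rw [uD_i, uD_p l m (r + 1) r rfl]
      unfold loz hiz at *; omega
    · by_cases c3 : r + 1 + 1 = i
      · rw [uD_p l m i (r + 1) c3, uD_o l m i r c1 c2]
        unfold loz hiz at *; omega
      · rw [uD_o l m i (r + 1) c2 c3, uD_o l m i r c1 c2]
        unfold loz hiz at *; omega

lemma wD_anti (l m : ℕ → ℤ) (i : ℕ) (hl : ∀ i, l (i + 1) ≤ l i) (hm : ∀ i, m (i + 1) ≤ m i)
    (r : ℕ) (hb1 : loz l m r ≤ hiz l m r) (hb2 : loz l m (r + 1) ≤ hiz l m (r + 1)) :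
    wD l m i (r + 1) ≤ wD l m i r := by
  have g1 := hl (r + 2); have g2 := hm (r + 2); have g3 := hl (r + 1); have g4 := hm (r + 1)
  have g5 := hl r; have g6 := hm r
  have f1 : l (r + 1 + 2) = l (r + 3) := rfl
  have f2 : m (r + 1 + 2) = m (r + 3) := rfl
  have f3 : l (r + 2 + 1) = l (r + 3) := rfl
  have f4 : m (r + 2 + 1) = m (r + 3) := rfl
  have f5 : l (r + 1 + 1) = l (r + 2) := rfl
  have f6 : m (r + 1 + 1) = m (r + 2) := rfl
  by_cases c1 : r = i
  · subst c1
    rw [wD_i, wD_o l m r (r + 1) (by omega) (by omega)]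
    unfold loz hiz at *; omega
  · by_cases c2 : r + 1 = i
    · subst c2
      rw [wD_i, wD_p l m (r + 1) r rfl]
      unfold loz hiz at *; omega
    · by_cases c3 : r + 1 + 1 = i
      · rw [wD_p l m i (r + 1) c3, wD_o l m i r c1 c2]
        unfold loz hiz at *; omega
      · rw [wD_o l m i (r + 1) c2 c3, wD_o l m i r c1 c2]
        unfold loz hiz at *; omega

/-- an integral point with small `D` for the strip `i` -/
theorem minD (l m : ℕ → ℤ) (n : ℕ) (E : ℤ) (hl : ∀ i, l (i + 1) ≤ l i) (hm : ∀ i, m (i + 1) ≤ m i)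
    (hlz : ∀ i, n ≤ i → l i = 0) (hmz : ∀ i, n ≤ i → m i = 0) (A : ℕ → ℝ) (hA : PtR l m n E A)
    (i : ℕ) (v0 : ℤ) (hD : ∑ r ∈ range n, psiR l m i r (A r) ≤ v0) :
    ∃ a, Pt l m n E a ∧ D l m n i a ≤ v0 := by
  have hbox := box_le l m n E A hA
  obtain ⟨a, k1, k2, k3, k4⟩ := minG n (loz l m) (uD l m i) (wD l m i) (hiz l m) E
    (by
      intro i hi
      have := hl (i + 2); have := hm (i + 2)
      have f1 : l (i + 1 + 2) = l (i + 3) := rfl
      have f2 : m (i + 1 + 2) = m (i + 3) := rfl
      have f3 : l (i + 2 + 1) = l (i + 3) := rfl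
      have f4 : m (i + 2 + 1) = m (i + 3) := rfl
      unfold loz; omega)
    (fun r hr => uD_anti l m i hl hm r (hbox r (by omega)) (hbox (r + 1) hr))
    (fun r hr => wD_anti l m i hl hm r (hbox r (by omega)) (hbox (r + 1) hr))
    (by intro i hi; have := hl i; have := hm i; unfold hiz; omega)
    (by
      intro r hr
      by_cases c1 : r = i
      · subst c1; rw [uD_i]; omega
      · by_cases c2 : r + 1 = i
        · rw [uD_p l m i r c2]
        · rw [uD_o l m i r c1 c2]; omega)
    (by
      intro r hr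
      have := hl r; have := hm r; have := hbox r hr
      by_cases c1 : r = i
      · subst c1; rw [uD_i, wD_i]; omega
      · by_cases c2 : r + 1 = i
        · rw [uD_p l m i r c2, wD_p l m i r c2]; omega
        · rw [uD_o l m i r c1 c2, wD_o l m i r c1 c2]; unfold loz hiz at *; omega)
    (by
      intro r hr
      have := hbox r hr
      by_cases c1 : r = i
      · subst c1; rw [wD_i]
      · by_cases c2 : r + 1 = i
        · rw [wD_p l m i r c2]; omega
        · rw [wD_o l m i r c1 c2]; omega)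
    (fun r x => psi l m i r x) (fun r y => psiR l m i r y)
    (by
      intro r hr x x1 x2
      by_cases c1 : r = i
      · subst c1
        rw [uD_i] at x2
        rw [psi_i, psi_i]; omega
      · by_cases c2 : r + 1 = i
        · rw [uD_p l m i r c2] at x2
          have : x = loz l m r := by omega
          rw [this]; ring
        · rw [uD_o l m i r c1 c2] at x2
          rw [psi_o l m i r _ c1 c2, psi_o l m i r _ c1 c2]
          unfold phi; omega)
    (by
      intro r hr x x1 x2
      have := hl r; have := hm r; have := hbox r hr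
      by_cases c1 : r = i
      · subst c1
        rw [uD_i] at x1 ⊢
        rw [wD_i] at x2
        rw [psi_i, psi_i]; omega
      · by_cases c2 : r + 1 = i
        · rw [uD_p l m i r c2] at x1 ⊢
          rw [wD_p l m i r c2] at x2
          rw [psi_p l m i r _ c2, psi_p l m i r _ c2]; omega
        · rw [uD_o l m i r c1 c2] at x1 ⊢
          rw [wD_o l m i r c1 c2] at x2
          rw [psi_o l m i r _ c1 c2, psi_o l m i r _ c1 c2]
          unfold phi; unfold loz hiz at *; omega)
    (by
      intro r hr x x1 x2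
      by_cases c1 : r = i
      · subst c1
        rw [wD_i] at x1
        have : x = hiz l m r := by omega
        rw [this]
      · by_cases c2 : r + 1 = i
        · rw [wD_p l m i r c2] at x1
          rw [psi_p l m i r _ c2, psi_p l m i r _ c2]; omega
        · rw [wD_o l m i r c1 c2] at x1
          rw [psi_o l m i r _ c1 c2, psi_o l m i r _ c1 c2]
          unfold phi; unfold hiz at *; omega)
    (by
      intro r hr y y1 y2
      have p1 := pos1 (l (r + 1)) (loz l m r) y y1
      have p2 := pos1 (m (r + 1)) (loz l m r) y y1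
      by_cases c1 : r = i
      · subst c1
        rw [psi_i, psiR_i]
        push_cast at p2 ⊢
        linarith
      · by_cases c2 : r + 1 = i
        · rw [psi_p l m i r _ c2, psiR_p l m i r _ c2]
          push_cast at p2 ⊢
          linarith
        · rw [psi_o l m i r _ c1 c2, psiR_o l m i r _ c1 c2]
          unfold phi phiR
          push_cast at p1 p2 ⊢
          linarith)
    (by
      intro r hr y y1 y2
      by_cases c1 : r = i
      · subst c1
        rw [psi_i, psiR_i, uD_i]
        have := pos3 (m (r + 1)) (loz l m r) (hiz l m r) y y2 _ rfl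
        push_cast at this ⊢
        linarith
      · by_cases c2 : r + 1 = i
        · rw [psi_p l m i r _ c2, psiR_p l m i r _ c2, uD_p l m i r c2]
          exact pos1 (m (r + 1)) (loz l m r) y y1
        · rw [psi_o l m i r _ c1 c2, psiR_o l m i r _ c1 c2, uD_o l m i r c1 c2]
          unfold phi phiR
          exact pos2 (l (r + 1)) (m (r + 1)) _ y (loz l m r) y1 rfl)
    (by
      intro r hr y y1 y2
      have p1 := pos0 (l (r + 1)) (hiz l m r) y y2
      have p2 := pos0 (m (r + 1)) (hiz l m r) y y2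
      by_cases c1 : r = i
      · subst c1
        rw [psi_i, psiR_i]
        push_cast at p2 ⊢
        linarith
      · by_cases c2 : r + 1 = i
        · rw [psi_p l m i r _ c2, psiR_p l m i r _ c2]
          exact p2
        · rw [psi_o l m i r _ c1 c2, psiR_o l m i r _ c1 c2]
          unfold phi phiR
          push_cast at p1 p2 ⊢
          linarith)
    A (lo_A l m n E A hA) (A_hi l m n E A hA) hA.sum
  refine ⟨a, mkPt l m n E hlz hmz a k1 k2 k3, ?_⟩
  have : ((D l m n i a : ℤ) : ℝ) ≤ v0 := by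
    unfold D
    exact k4.trans hD
  exact_mod_cast this

end Pool.Agent.NLS
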