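import Mathlib
import Pool.Agent.NLS.MinD
import Pool.Agent.NLS.M1
import Pool.Agent.NLS.M2

set_option autoImplicit false

namespace Pool.Agent.NLS

open Finset

/-- two-row sequence -/
def two (x y : ℕ) : ℕ → ℕ := fun j => if j = 0 then x else if j = 1 then y else 0

lemma two_0 (x y : ℕ) : two x y 0 = x := rfl
lemma two_1 (x y : ℕ) : two x y 1 = y := rfl
lemma two_ge (x y j : ℕ) (hj : 2 ≤ j) : two x y j = 0 := by
  unfold two
  rw [if_neg (by omega), if_neg (by omega)]

lemma two_anti (x y : ℕ) (h : y ≤ x) : Antitone (two x y) := by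
  apply antitone_nat_of_succ_le
  intro i
  rcases i with _ | _ | i
  · exact h
  · rw [two_ge x y (0 + 1 + 1) (by omega)]; exact Nat.zero_le _
  · rw [two_ge x y (i + 1 + 1 + 1) (by omega)]; exact Nat.zero_le _

lemma sum_two (n : ℕ) (hn : 2 ≤ n) (x : ℕ → ℕ) (hx : ∀ j, 2 ≤ j → x j = 0) :
    ∑ j ∈ range n, x j = x 0 + x 1 := by
  obtain ⟨k, rfl⟩ : ∃ k, n = k + 2 := ⟨n - 2, by omega⟩
  rw [Finset.sum_range_succ', Finset.sum_range_succ']
  have : ∑ j ∈ range k, x (j + 1 + 1) = 0 := Finset.sum_eq_zero (fun j _ => hx _ (by omega))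
  rw [this]; simp; ring

/-- Littlewood-Richardson for three two-row shapes -/
lemma LR_two (n : ℕ) (hn : 2 ≤ n) (v : ℕ → ℕ) (hv : Antitone v) (hv2 : ∀ i, 2 ≤ i → v i = 0)
    (b0 b1 c0 c1 : ℕ) (hb : b1 ≤ b0) (hc : c1 ≤ c0) (hs : b0 + b1 + c0 + c1 = v 0 + v 1)
    (h1 : b1 + c1 ≤ v 1) (h2 : v 1 ≤ b0 + c1) (h3 : b0 + c1 ≤ v 0) :
    LR n v (two b0 b1) (two c0 c1) := by
  have hv10 : v 1 ≤ v 0 := hv (by omega)
  refine LR2_suf n hn v (two b0 b1) hv (two_anti b0 b1 hb) (fun i hi => hv2 i (by omega))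
    (fun i hi => two_ge _ _ i (by omega)) ?_ ?_ c0 c1 hc ?_ ?_ ?_
  · intro i
    rcases i with _ | _ | i
    · rw [two_0]; omega
    · show two b0 b1 1 ≤ v 1
      rw [two_1]; omega
    · rw [two_ge _ _ _ (by omega)]; exact Nat.zero_le _
  · intro i
    rw [hv2 (i + 2) (by omega)]; exact Nat.zero_le _
  · rw [sum_two n hn v hv2, sum_two n hn (two b0 b1) (fun j hj => two_ge _ _ j hj), two_0, two_1]
    omega
  · unfold kap
    rw [Finset.sum_eq_single_of_mem 0 (mem_range.mpr (by omega))]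
    · rw [two_0]; show v 1 - b0 ≤ c1; omega
    · intro j _ hj
      rw [hv2 (j + 1) (by omega)]; exact Nat.zero_sub _
  · intro i hi
    unfold Dd
    rcases i with _ | _ | i
    · rw [Finset.sum_eq_zero]
      · rw [two_0]; omega
      · intro r _
        by_cases hr : r = 0
        · rw [if_pos (Or.inl hr)]
        · rw [hv2 (r + 1) (by omega)]; split_ifs <;> simp
    · rw [Finset.sum_eq_zero]
      · show v 1 - two b0 b1 1 + 0 ≤ c0
        rw [two_1]; omega
      · intro r _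
        by_cases hr : r = 0
        · rw [if_pos (Or.inr (by omega))]
        · rw [hv2 (r + 1) (by omega)]; split_ifs <;> simp
    · rw [hv2 (i + 1 + 1) (by omega)]
      rw [Finset.sum_eq_single_of_mem 0 (mem_range.mpr (by omega))]
      · rw [if_neg (by omega), two_0]
        show 0 - _ + (v 1 - b0) ≤ c0
        omega
      · intro r _ hr
        rw [hv2 (r + 1) (by omega)]; split_ifs <;> simp

/-- choice of the two contents -/
lemma finish (n : ℕ) (hn : 2 ≤ n) (l m v a : ℕ → ℕ) (hl : Antitone l) (hm : Antitone m)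
    (hv : Antitone v) (ha : Antitone a) (hlz : ∀ i, n ≤ i → l i = 0) (hmz : ∀ i, n ≤ i → m i = 0)
    (haz : ∀ i, n ≤ i → a i = 0) (hv2 : ∀ i, 2 ≤ i → v i = 0)
    (hal : ∀ i, a i ≤ l i) (ham : ∀ i, a i ≤ m i) (hla : ∀ i, l (i + 2) ≤ a i)
    (hma : ∀ i, m (i + 2) ≤ a i) (B C : ℕ)
    (hB : ∑ i ∈ range n, l i = ∑ i ∈ range n, a i + B)
    (hC : ∑ i ∈ range n, m i = ∑ i ∈ range n, a i + C) (hBC : B + C = v 0 + v 1)
    (hK : kap n l a + kap n m a ≤ v 1)
    (hDl : ∀ i, i < n → Dd n l a i + kap n m a ≤ v 0)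
    (hDm : ∀ i, i < n → Dd n m a i + kap n l a ≤ v 0)
    (hkl : 2 * kap n l a ≤ B) (hkm : 2 * kap n m a ≤ C)
    (hfl : ∀ i, i < n → Dd n l a i + kap n l a ≤ B)
    (hfm : ∀ i, i < n → Dd n m a i + kap n m a ≤ C) : NL n l m v := by
  obtain ⟨x, hx⟩ : ∃ x, x = kap n l a := ⟨_, rfl⟩
  obtain ⟨y, hy⟩ : ∃ y, y = kap n m a := ⟨_, rfl⟩
  have hv10 : v 1 ≤ v 0 := hv (by omega)
  rw [← hx, ← hy] at hK
  rw [← hx] at hkl
  rw [← hy] at hkm
  have mk : ∀ b0 b1 c0 c1 : ℕ, b1 ≤ b0 → c1 ≤ c0 → b0 + b1 = B → c0 + c1 = C →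
      x ≤ b1 → y ≤ c1 → (∀ i, i < n → Dd n l a i ≤ b0) → (∀ i, i < n → Dd n m a i ≤ c0) →
      b1 + c1 ≤ v 1 → v 1 ≤ b0 + c1 → b0 + c1 ≤ v 0 → NL n l m v := by
    intro b0 b1 c0 c1 h1 h2 h3 h4 h5 h6 h7 h8 h9 h10 h11
    refine ⟨a, two b0 b1, two c0 c1, ha, two_anti _ _ h1, two_anti _ _ h2, ?_, ?_, ?_, ?_⟩
    · intro i hi
      exact ⟨haz i hi, two_ge _ _ i (by omega), two_ge _ _ i (by omega)⟩
    · exact LR2_suf n hn l a hl ha hlz haz hal hla b0 b1 h1 (by omega) (by omega) h7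
    · exact LR2_suf n hn m a hm ha hmz haz ham hma c0 c1 h2 (by omega) (by omega) h8
    · exact LR_two n hn v hv hv2 b0 b1 c0 c1 h1 h2 (by omega) h9 h10 h11
  by_cases c2 : v 1 + y > C + x
  · -- case 2
    refine mk (v 0 - y) (B + y - v 0) (C - y) y (by omega) (by omega) (by omega) (by omega)
      (by omega) (by omega) ?_ ?_ (by omega) (by omega) (by omega)
    · intro i hi
      have := hDl i hi
      omega
    · intro i hi
      have := hfm i hi
      omega
  · by_cases c3 : v 1 + x > B + y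
    · -- case 3
      refine mk (B - x) x (v 0 - x) (C + x - v 0) (by omega) (by omega) (by omega) (by omega)
        (by omega) (by omega) ?_ ?_ (by omega) (by omega) (by omega)
      · intro i hi
        have := hfl i hi
        omega
      · intro i hi
        have := hDm i hi
        omega
    · refine mk (B - x) x (C - y) y (by omega) (by omega) (by omega) (by omega)
        (by omega) (by omega) ?_ ?_ (by omega) (by omega) (by omega)
      · intro i hi
        have := hfl i hi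
        omega
      · intro i hi
        have := hfm i hi
        omega

end Pool.Agent.NLS
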