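import Mathlib

set_option autoImplicit false

namespace Pool.Agent.NLS

/-- `c^l_{a,b} ≠ 0` for partitions with at most `n` parts: there is a Littlewood-Richardson filling
of `l / a` with content `b`; `t i j` is the number of entries `j` in row `i`. -/
def LR (n : ℕ) (l a b : ℕ → ℕ) : Prop :=
  ∃ t : ℕ → ℕ → ℕ,
    (∀ i, i < n → a i + ∑ j ∈ Finset.range n, t i j = l i) ∧
    (∀ j, j < n → ∑ i ∈ Finset.range n, t i j = b j) ∧
    (∀ i j, i < j → t i j = 0) ∧
    (∀ i j, i + 1 < n → j < n →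
      a (i + 1) + ∑ k ∈ Finset.range (j + 1), t (i + 1) k
        ≤ a i + ∑ k ∈ Finset.range j, t i k) ∧
    (∀ i j, i < n → j + 1 < n →
      ∑ r ∈ Finset.range (i + 1), t r (j + 1) ≤ ∑ r ∈ Finset.range i, t r j)

/-- The Newell-Littlewood number of `(l, m, v)` is nonzero. -/
def NL (n : ℕ) (l m v : ℕ → ℕ) : Prop :=
  ∃ a b c : ℕ → ℕ,
    Antitone a ∧ Antitone b ∧ Antitone c ∧
    (∀ i, n ≤ i → a i = 0 ∧ b i = 0 ∧ c i = 0) ∧
    LR n l a b ∧ LR n m a c ∧ LR n v b c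

/-- number of columns of length two of `l / a` (truncated subtraction) -/
def kap (n : ℕ) (l a : ℕ → ℕ) : ℕ := ∑ r ∈ Finset.range n, (l (r + 1) - a r)

/-- `kap` plus the length of the `i`-th row strip -/
def Dd (n : ℕ) (l a : ℕ → ℕ) (i : ℕ) : ℕ :=
  (l i - a i) + ∑ r ∈ Finset.range n, (if r = i ∨ r + 1 = i then 0 else l (r + 1) - a r)

end Pool.Agent.NLS
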