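import Mathlib
import Pool.Agent.NLS.Asm

set_option autoImplicit false

namespace Pool.Agent.NLS

open Finset

lemma Dd_eq (l a : ℕ → ℤ) (n i : ℕ) (hi : i < n) :
    (l i - a i) + ∑ r ∈ range n, (if r = i ∨ r + 1 = i then 0 else max (l (r + 1) - a r) 0)
      = fs l a i + ∑ r ∈ range n, max (l (r + 1) - a r) 0 := by
  have h0 : ∀ r ∈ range n, max (l (r + 1) - a r) 0
      = (if r = i ∨ r + 1 = i then 0 else max (l (r + 1) - a r) 0)
        + (if r = i then max (l (i + 1) - a i) 0 else 0)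
        + (if r + 1 = i then max (l i - a (i - 1)) 0 else 0) := by
    intro r _
    by_cases c1 : r = i
    · subst c1
      rw [if_pos (Or.inl rfl), if_pos rfl, if_neg (by omega)]; ring
    · by_cases c2 : r + 1 = i
      · rw [if_pos (Or.inr c2), if_neg c1, if_pos c2, ← c2]
        simp
      · rw [if_neg (by omega), if_neg c1, if_neg c2]; ring
  rw [Finset.sum_congr rfl h0, Finset.sum_add_distrib, Finset.sum_add_distrib]
  have h1 : ∑ r ∈ range n, (if r = i then max (l (i + 1) - a i) 0 else 0)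
      = max (l (i + 1) - a i) 0 := by
    rw [Finset.sum_ite_eq' (range n) i (fun _ => max (l (i + 1) - a i) 0)]
    simp [hi]
  have h2 : ∑ r ∈ range n, (if r + 1 = i then max (l i - a (i - 1)) 0 else 0)
      = if i = 0 then 0 else max (l i - a (i - 1)) 0 := by
    by_cases h0 : i = 0
    · subst h0; simp
    · rw [if_neg h0]
      rw [Finset.sum_eq_single_of_mem (i - 1) (mem_range.mpr (by omega))]
      · rw [if_pos (by omega)]
      · intro r _ hr
        rw [if_neg (by omega)]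
  rw [h1, h2]
  unfold fs
  ring

lemma posdiv (k : ℕ) (hk : 1 ≤ k) (L x : ℕ) :
    max ((L : ℝ) - (x : ℝ) / k) 0 = ((k * L - x : ℕ) : ℝ) / k := by
  have hk' : (0 : ℝ) < k := by exact_mod_cast hk
  rcases le_total x (k * L) with c | c
  · rw [Nat.cast_sub c]
    have c' : (x : ℝ) ≤ k * L := by exact_mod_cast c
    have : (L : ℝ) - (x : ℝ) / k = ((k : ℝ) * L - x) / k := by
      field_simp
    rw [this]
    push_cast
    exact max_eq_left (div_nonneg (by linarith) hk'.le)
  · rw [Nat.sub_eq_zero_of_le c]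
    have c' : (k : ℝ) * L ≤ x := by exact_mod_cast c
    have : (L : ℝ) ≤ (x : ℝ) / k := by
      rw [le_div_iff₀ hk']; linarith
    rw [max_eq_right (by linarith)]
    simp

lemma psiR_split (l m : ℕ → ℤ) (i r : ℕ) (y : ℝ) :
    psiR l m i r y = (if r = i ∨ r + 1 = i then 0 else max ((l (r + 1) : ℝ) - y) 0)
      + (if r = i then (l i : ℝ) - y else 0) + max ((m (r + 1) : ℝ) - y) 0 := by
  by_cases c1 : r = i
  · subst c1
    rw [psiR_i, if_pos (Or.inl rfl), if_pos rfl]; ring
  · by_cases c2 : r + 1 = i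
    · rw [psiR_p l m i r y c2, if_pos (Or.inr c2), if_neg c1]; ring
    · rw [psiR_o l m i r y c1 c2, if_neg (by omega), if_neg c1]
      unfold phiR; ring

/-- casts of sequences -/
def cz (l : ℕ → ℕ) : ℕ → ℤ := fun i => (l i : ℤ)

lemma sum_psiR (k : ℕ) (hk : 1 ≤ k) (l m a : ℕ → ℕ) (n i : ℕ) (hi : i < n)
    (hai : a i ≤ k * l i) :
    ∑ r ∈ range n, psiR (cz l) (cz m) i r ((a r : ℝ) / k)
      = ((Dd n (fun j => k * l j) a i + kap n (fun j => k * m j) a : ℕ) : ℝ) / k := by
  have hk' : (0 : ℝ) < k := by exact_mod_cast hk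
  have h1 : ∀ r ∈ range n, psiR (cz l) (cz m) i r ((a r : ℝ) / k)
      = (if r = i ∨ r + 1 = i then 0 else ((k * l (r + 1) - a r : ℕ) : ℝ) / k)
        + (if r = i then ((k * l i - a i : ℕ) : ℝ) / k else 0)
        + ((k * m (r + 1) - a r : ℕ) : ℝ) / k := by
    intro r _
    rw [psiR_split]
    unfold cz
    simp only [Int.cast_natCast]
    rw [posdiv k hk, posdiv k hk]
    by_cases c : r = i
    · subst c
      rw [if_pos rfl, if_pos rfl]
      have : (l r : ℝ) - (a r : ℝ) / k = ((k * l r - a r : ℕ) : ℝ) / k := by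
        rw [Nat.cast_sub hai]; push_cast; field_simp
      rw [this]
    · rw [if_neg c, if_neg c]
  rw [Finset.sum_congr rfl h1, Finset.sum_add_distrib, Finset.sum_add_distrib]
  rw [Finset.sum_ite_eq' (range n) i (fun _ => ((k * l i - a i : ℕ) : ℝ) / k)]
  rw [if_pos (mem_range.mpr hi)]
  unfold Dd kap
  push_cast
  rw [add_div, add_div, Finset.sum_div, Finset.sum_div]
  have h2 : ∑ r ∈ range n, (if r = i ∨ r + 1 = i then 0 else ((k * l (r + 1) - a r : ℕ) : ℝ) / k)
      = ∑ r ∈ range n, (if r = i ∨ r + 1 = i then (0 : ℝ) else ((k * l (r + 1) - a r : ℕ) : ℝ)) / k := by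
    apply Finset.sum_congr rfl
    intro r _
    split_ifs <;> simp
  rw [h2]
  ring

lemma sum_phiR (k : ℕ) (hk : 1 ≤ k) (l m a : ℕ → ℕ) (n : ℕ) :
    ∑ r ∈ range n, phiR (cz l) (cz m) r ((a r : ℝ) / k)
      = ((kap n (fun j => k * l j) a + kap n (fun j => k * m j) a : ℕ) : ℝ) / k := by
  have h1 : ∀ r ∈ range n, phiR (cz l) (cz m) r ((a r : ℝ) / k)
      = ((k * l (r + 1) - a r : ℕ) : ℝ) / k + ((k * m (r + 1) - a r : ℕ) : ℝ) / k := by
    intro r _
    unfold phiR cz
    simp only [Int.cast_natCast]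
    rw [posdiv k hk, posdiv k hk]
  rw [Finset.sum_congr rfl h1, Finset.sum_add_distrib]
  unfold kap
  push_cast
  rw [add_div, Finset.sum_div, Finset.sum_div]

end Pool.Agent.NLS
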